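import Pool.Agent.Q316.GenCol

/-!
A function dominating all partial computable functions, with a graph that is the difference of two
c.e. sets.
-/

set_option autoImplicit false

namespace Pool.Agent.Q316.BT

open Encodable Pool.Agent.Helper578.JD Pool.Agent.Helper578.JD.Oracle Pool.Agent.Helper578.JD.Defs
open Pool.Agent.Q316.GC
open Nat.Partrec (Code)

theorem graph_re {α β : Type*} [Primcodable α] [Primcodable β] {f : α →. β} (hf : Partrec f) :
    REPred fun x : α × β => x.2 ∈ f x.1 := by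
  classical
  have h1 : Partrec fun x : α × β => (f x.1).bind fun y =>
      ((bif decide (encode y = encode x.2) then Option.some () else none : Option Unit) :
        Part Unit) := by
    refine Partrec.bind (hf.comp Computable.fst) ?_
    refine Computable.ofOption ?_
    refine Computable.cond ?_ (Computable.const _) (Computable.const _)
    have h2 : Computable fun p : (α × β) × β => encode p.2 := Computable.encode.comp Computable.snd
    have h3 : Computable fun p : (α × β) × β => encode p.1.2 :=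
      Computable.encode.comp (Computable.snd.comp Computable.fst)
    exact (Primrec.eq.decide.to_comp).comp h2 h3
  refine (h1.dom_re).of_eq fun x => ?_
  rw [Part.bind_dom]
  constructor
  · rintro ⟨h, h2⟩
    by_cases he : encode ((f x.1).get h) = encode x.2
    · have : (f x.1).get h = x.2 := encode_injective he
      rw [← this]
      exact Part.get_mem h
    · simp [he] at h2
  · intro h
    refine ⟨Part.dom_iff_mem.2 ⟨_, h⟩, ?_⟩
    have : (f x.1).get (Part.dom_iff_mem.2 ⟨_, h⟩) = x.2 := Part.get_eq_of_mem h _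
    rw [this]
    simp

/-- `c` is at most some value `φ_e(j)` with `e, j ≤ i`. -/
def M (i c : ℕ) : Prop :=
  ∃ z : (ℕ × ℕ) × ℕ, z.1.1 ≤ i ∧ z.1.2 ≤ i ∧ z.2 ∈ (Denumerable.ofNat Code z.1.1).eval z.1.2 ∧ c ≤ z.2

theorem M_re : REPred fun x : ℕ × ℕ => M x.1 x.2 := by
  refine RE.ex (p := fun (x : ℕ × ℕ) (z : (ℕ × ℕ) × ℕ) => z.1.1 ≤ x.1 ∧ z.1.2 ≤ x.1 ∧
    z.2 ∈ (Denumerable.ofNat Code z.1.1).eval z.1.2 ∧ x.2 ≤ z.2) ?_
  refine RE.and (RE.le (by fun_prop) (by fun_prop)) (RE.and (RE.le (by fun_prop) (by fun_prop))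
    (RE.and ?_ (RE.le (by fun_prop) (by fun_prop))))
  have h : Partrec fun p : ℕ × ℕ => (Denumerable.ofNat Code p.1).eval p.2 :=
    Code.eval_part.comp ((Computable.ofNat Code).comp Computable.fst) Computable.snd
  exact RE.comp (graph_re h) (f := fun x : (ℕ × ℕ) × ((ℕ × ℕ) × ℕ) => (x.2.1, x.2.2)) (by fun_prop)

theorem M_down {i c d : ℕ} (h : M i c) (hd : d ≤ c) : M i d := by
  obtain ⟨z, h1, h2, h3, h4⟩ := h
  exact ⟨z, h1, h2, h3, hd.trans h4⟩

theorem M_mono {i j c : ℕ} (h : M i c) (hij : i ≤ j) : M j c := by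
  obtain ⟨z, h1, h2, h3, h4⟩ := h
  exact ⟨z, h1.trans hij, h2.trans hij, h3, h4⟩

theorem M_bdd (i : ℕ) : ∃ c, ¬ M i c := by
  classical
  let v : ℕ × ℕ → ℕ := fun p =>
    if h : ((Denumerable.ofNat Code p.1).eval p.2).Dom then
      ((Denumerable.ofNat Code p.1).eval p.2).get h else 0
  refine ⟨(Finset.range (i + 1) ×ˢ Finset.range (i + 1)).sup v + 1, ?_⟩
  rintro ⟨z, h1, h2, h3, h4⟩
  have h5 : v z.1 ≤ (Finset.range (i + 1) ×ˢ Finset.range (i + 1)).sup v :=
    Finset.le_sup (f := v) (Finset.mem_product.2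
      ⟨Finset.mem_range.2 (by omega), Finset.mem_range.2 (by omega)⟩)
  have h6 : v z.1 = z.2 := by
    have hd : ((Denumerable.ofNat Code z.1.1).eval z.1.2).Dom := Part.dom_iff_mem.2 ⟨_, h3⟩
    simp only [v]
    rw [dif_pos hd]
    exact Part.get_eq_of_mem h3 hd
  omega

open Classical in
/-- The dominating function. -/
noncomputable def m (i : ℕ) : ℕ := Nat.find (M_bdd i)

theorem m_spec (i : ℕ) : ¬ M i (m i) := by classical exact Nat.find_spec (M_bdd i)

theorem m_min {i c : ℕ} (h : c < m i) : M i c := by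
  classical
  by_contra hcon
  exact absurd h (not_lt.2 (Nat.find_min' (M_bdd i) hcon))

theorem M_iff {i c : ℕ} : M i c ↔ c < m i := by
  refine ⟨fun h => ?_, m_min⟩
  by_contra hcon
  exact m_spec i (M_down h (not_lt.1 hcon))

theorem m_mono {i j : ℕ} (h : i ≤ j) : m i ≤ m j := by
  by_contra hcon
  push Not at hcon
  exact m_spec j (M_mono (m_min hcon) h)

theorem m_eq_iff {i c : ℕ} : m i = c ↔ (c = 0 ∨ M i (c - 1)) ∧ ¬ M i c := by
  rw [M_iff, M_iff]
  omega

theorem m_dom {ψ : ℕ →. ℕ} (hψ : Partrec ψ) : ∃ N, ∀ i, N ≤ i → ∀ y ∈ ψ i, y < m i := by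
  obtain ⟨c, hc⟩ := Code.exists_code.1 (Partrec.nat_iff.1 hψ)
  refine ⟨encode c, fun i hi y hy => M_iff.1 ⟨((encode c, i), y), hi, le_rfl, ?_, le_rfl⟩⟩
  simp only [Denumerable.ofNat_encode, hc]
  exact hy

/-- The graph of `m` is c.e. in the halting set. -/
theorem m_graph_REIn : REIn K fun x : ℕ × ℕ => m x.1 = x.2 := by
  have hM : REPred fun n : ℕ => M n.unpair.1 n.unpair.2 :=
    RE.comp M_re (f := fun n : ℕ => (n.unpair.1, n.unpair.2)) (by fun_prop)
  obtain ⟨g, hg, hgK⟩ := re_red_K hM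
  have h1 : REIn K fun x : ℕ × ℕ => ¬ M x.1 x.2 := by
    refine (REIn.not_mem (f := fun x : ℕ × ℕ => g (Nat.pair x.1 x.2))
      (hg.comp (by fun_prop))).of_eq fun x => ?_
    rw [← hgK, Nat.unpair_pair]
  have h2 : REIn K fun x : ℕ × ℕ => x.2 = 0 ∨ M x.1 (x.2 - 1) := by
    refine REIn.of_re (RE.or (RE.eq (by fun_prop) (by fun_prop)) ?_)
    exact RE.comp M_re (f := fun x : ℕ × ℕ => (x.1, x.2 - 1)) (by fun_prop)
  exact (h2.and h1).of_eq fun x => m_eq_iff.symm

end Pool.Agent.Q316.BT
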