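import Pool.Agent.Helper578.JD.Exist

/-!
A 1-generic set below the halting problem; functions with computable graph-wrongness computable
from a 1-generic set are computable; computable 4-colourings of 2-colourable highly computable
graphs.
-/

set_option autoImplicit false

namespace Pool.Agent.Q316.GC

open Encodable Pool.Agent.Helper578.JD Pool.Agent.Helper578.JD.Oracle Pool.Agent.Helper578.JD.Defs
open Nat.Partrec (Code)

/-- The halting set. -/
def K : Set ℕ := {n | ((Denumerable.ofNat Code n).eval n).Dom}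

theorem re_red_K {P : ℕ → Prop} (hP : REPred P) :
    ∃ g : ℕ → ℕ, Computable g ∧ ∀ n, P n ↔ g n ∈ K := by
  obtain ⟨g, hg, h⟩ := smn (α := ℕ) (β := ℕ) (P := fun a _ => P a)
    (RE.comp hP (f := fun x : ℕ × ℕ => x.1) Computable.fst)
  exact ⟨g, hg, fun n => (h n (g n)).symm⟩

theorem re_red_K' {P : ℕ → Prop} (hP : REPred P) : Red {n | P n} K := by
  obtain ⟨g, hg, h⟩ := re_red_K hP
  rw [Red_iff]
  exact ⟨(REIn.mem hg).of_eq fun n => (h n).symm, (REIn.not_mem hg).of_eq fun n => not_congr (h n).symm⟩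

theorem H_zero : H (Nat.lt_wfRel.wf) (∅ : Set ℕ) 0 = ∅ := by
  rw [H_eq]
  ext n
  simp only [join, Set.mem_ofPred_eq, Set.mem_empty_iff_false, and_false, false_or, iff_false]
  rintro ⟨-, h, -⟩
  exact Nat.not_lt_zero _ h

theorem H_one : ∀ n, n ∈ H (Nat.lt_wfRel.wf) (∅ : Set ℕ) 1 ↔
    (n % 2 = 1 ∧ (n / 2).unpair.1 = 0 ∧ ∃ c : Info, c.1 = [] ∧ W (n / 2).unpair.2 (encode c)) := by
  intro n
  rw [H_eq]
  have e : ∀ c : Info, Ok ∅ c ↔ c.1 = [] := by
    intro c
    constructor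
    · rintro ⟨h, -⟩
      exact List.eq_nil_iff_forall_not_mem.2 fun x hx => h x hx
    · intro h
      exact ⟨fun x hx => by rw [h] at hx; simp at hx, fun x _ h => h⟩
  have e2 : ∀ k, k < 1 ↔ k = 0 := fun k => by omega
  simp only [join, Set.mem_ofPred_eq, Set.mem_empty_iff_false, and_false, false_or]
  show n % 2 = 1 ∧ ((n / 2).unpair.1 < 1 ∧ (n / 2).unpair.2 ∈ jump (H _ ∅ (n / 2).unpair.1)) ↔ _
  rw [e2]
  constructor
  · rintro ⟨h1, h2, h3⟩
    rw [h2, H_zero] at h3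
    obtain ⟨c, hc, hW⟩ := h3
    exact ⟨h1, h2, c, (e c).1 hc, hW⟩
  · rintro ⟨h1, h2, c, hc, hW⟩
    refine ⟨h1, h2, ?_⟩
    rw [h2, H_zero]
    exact ⟨c, (e c).2 hc, hW⟩

theorem cmod2 {α : Type*} [Primcodable α] {f : α → ℕ} (hf : Computable f) :
    Computable fun a => f a % 2 :=
  (Primrec.nat_mod.to_comp).comp hf (Computable.const 2)

theorem cdiv2 {α : Type*} [Primcodable α] {f : α → ℕ} (hf : Computable f) :
    Computable fun a => f a / 2 :=
  (Primrec.nat_div.to_comp).comp hf (Computable.const 2)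

theorem exists_gen : ∃ X : Set ℕ, Red X K ∧ OneGen X ∅ := by
  have hRc : ComputablePred fun p : ℕ × ℕ => p.1 < p.2 := RE.cp_lt Computable.fst Computable.snd
  obtain ⟨X, h1, h2⟩ := exists_generic (R := fun a b => a < b) Nat.lt_wfRel.wf hRc 1
  refine ⟨X, ?_, ?_⟩
  · refine h1.trans ?_
    have h3 : REPred fun n : ℕ => n % 2 = 1 ∧ (n / 2).unpair.1 = 0 ∧
        ∃ c : Info, c.1 = [] ∧ W (n / 2).unpair.2 (encode c) := by
      have hd : Computable fun n : ℕ => n / 2 := cdiv2 Computable.id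
      refine RE.and (RE.eq (cmod2 Computable.id) (by fun_prop)) (RE.and
        (RE.eq (by fun_prop) (by fun_prop)) ?_)
      refine RE.ex (p := fun (n : ℕ) (c : Info) => c.1 = [] ∧ W (n / 2).unpair.2 (encode c)) ?_
      refine RE.and (RE.eq (by fun_prop) (by fun_prop)) ?_
      have hd' : Computable fun x : ℕ × Info => x.1 / 2 := cdiv2 Computable.fst
      exact RE.comp W_re (f := fun x : ℕ × Info => ((x.1 / 2).unpair.2, encode x.2)) (by fun_prop)
    have h4 := re_red_K' h3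
    have h5 : H (Nat.lt_wfRel.wf) (∅ : Set ℕ) 1 = {n | n % 2 = 1 ∧ (n / 2).unpair.1 = 0 ∧
        ∃ c : Info, c.1 = [] ∧ W (n / 2).unpair.2 (encode c)} := by
      ext n; exact H_one n
    rw [← h5] at h4
    exact h4
  · have h3 := h2 0 Nat.zero_lt_one
    have h4 : H (Nat.lt_wfRel.wf) (∅ : Set ℕ) 0 = ∅ := H_zero
    rw [← h4]
    exact h3

theorem exists_gt_list (l : List ℕ) : ∃ k, ∀ y ∈ l, y < k := by
  refine ⟨l.sum + 1, fun y hy => ?_⟩
  have := List.single_le_sum (l := l) (fun x _ => Nat.zero_le x) y hy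
  omega

/-- 1-generic sets are not computable. -/
theorem gen_not_computable {X : Set ℕ} (hX : OneGen X ∅) : ¬ ComputablePred (fun n => n ∈ X) := by
  intro hc
  have hc' : ComputablePred (fun n => n ∉ X) := hc.not
  let V : Info → Prop := fun q => (∃ x ∈ q.1, x ∉ X) ∨ (∃ x ∈ q.2, x ∈ X)
  have hV : REPred V := by
    refine RE.or ?_ ?_
    · exact RE.ex_mem (p := fun (_ : Info) (x : ℕ) => x ∉ X) (l := fun q : Info => q.1)
        (RE.comp hc'.to_re Computable.snd) (by fun_prop)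
    · exact RE.ex_mem (p := fun (_ : Info) (x : ℕ) => x ∈ X) (l := fun q : Info => q.2)
        (RE.comp hc.to_re Computable.snd) (by fun_prop)
  rcases hX V (REIn.of_re hV) with ⟨p, hp, hVp⟩ | ⟨p, hp, h⟩
  · rcases hVp with ⟨x, h1, h2⟩ | ⟨x, h1, h2⟩
    · exact h2 (hp.1 x h1)
    · exact hp.2 x h1 h2
  · obtain ⟨k, hk⟩ := exists_gt_list (p.1 ++ p.2)
    by_cases hkX : k ∈ X
    · refine h ([], [k]) (Or.inr ⟨k, by simp, hkX⟩) ?_
      intro x hx hx'
      simp only [app, List.append_nil, List.mem_append, List.mem_singleton] at hx hx'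
      rcases hx' with hx' | rfl
      · exact okCons hp x hx hx'
      · exact absurd (hk x (by simp [hx])) (lt_irrefl _)
    · refine h ([k], []) (Or.inl ⟨k, by simp, hkX⟩) ?_
      intro x hx hx'
      simp only [app, List.append_nil, List.mem_append, List.mem_singleton] at hx hx'
      rcases hx with hx | rfl
      · exact okCons hp x hx hx'
      · exact absurd (hk x (by simp [hx'])) (lt_irrefl _)

/-- A function which is computable from a 1-generic set, and for which being a wrong value is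
computably enumerable, is computable. -/
theorem gen_function {X : Set ℕ} (hX : OneGen X ∅) {f : ℕ → ℕ}
    (hf : REIn X fun p : ℕ × ℕ => f p.1 = p.2) (hw : REPred fun p : ℕ × ℕ => f p.1 ≠ p.2) :
    Computable f := by
  obtain ⟨R, hR, hS⟩ := hf
  let V : Info → Prop := fun q => ∃ p : ℕ × ℕ, R p q ∧ f p.1 ≠ p.2
  have hV : REPred V := by
    refine RE.ex (p := fun (q : Info) (p : ℕ × ℕ) => R p q ∧ f p.1 ≠ p.2) ?_
    refine RE.and (RE.comp hR (f := fun x : Info × (ℕ × ℕ) => (x.2, x.1)) (by fun_prop)) ?_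
    exact RE.comp hw (f := fun x : Info × (ℕ × ℕ) => x.2) (by fun_prop)
  rcases hX V (REIn.of_re hV) with ⟨q, hq, p, hp, hne⟩ | ⟨p, hp, h⟩
  · exact absurd ((hS p).2 ⟨q, hp, hq⟩) hne
  · refine RE.computable_of_graph ?_
    have h1 : REPred fun x : ℕ × ℕ => ∃ q : Info, R x q ∧ Cons (app p q) := by
      refine RE.ex (p := fun (x : ℕ × ℕ) (q : Info) => R x q ∧ Cons (app p q)) ?_
      refine RE.and hR ?_
      exact cons_re (f := fun x : (ℕ × ℕ) × Info => app p x.2) (by unfold app; fun_prop)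
    refine h1.of_eq fun x => ?_
    constructor
    · rintro ⟨q, h2, h3⟩
      by_contra hne
      exact h q ⟨x, h2, hne⟩ h3
    · intro h2
      obtain ⟨q, h3, h4⟩ := (hS x).1 h2
      exact ⟨q, h3, okCons (okApp hp h4)⟩

/-! ### Computable colourings -/

section colouring

variable {Adj : ℕ → ℕ → Prop} {L : ℕ → List ℕ}

/-- One step of the exhaustion. -/
def Nx (L : ℕ → List ℕ) (a : ℕ × List ℕ) (S : List ℕ) : Prop :=
  ∀ x ∈ a.1 :: a.2, x ∈ S ∧ ∀ y ∈ L x, y ∈ S

theorem Nx_re (hL : Computable L) : REPred fun x : (ℕ × List ℕ) × List ℕ => Nx L x.1 x.2 := by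
  unfold Nx
  refine RE.all_mem (p := fun (a : (ℕ × List ℕ) × List ℕ) (x : ℕ) => x ∈ a.2 ∧ ∀ y ∈ L x, y ∈ a.2)
    (l := fun a : (ℕ × List ℕ) × List ℕ => a.1.1 :: a.1.2) ?_ (by fun_prop)
  refine RE.and (RE.mem_list (f := fun z : ((ℕ × List ℕ) × List ℕ) × ℕ => z.2)
    (l := fun z : ((ℕ × List ℕ) × List ℕ) × ℕ => z.1.2) (by fun_prop) (by fun_prop)) ?_
  refine RE.all_mem (p := fun (z : ((ℕ × List ℕ) × List ℕ) × ℕ) (y : ℕ) => y ∈ z.1.2)
    (l := fun z : ((ℕ × List ℕ) × List ℕ) × ℕ => L z.2) ?_ (by fun_prop)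
  exact RE.mem_list (f := fun z : (((ℕ × List ℕ) × List ℕ) × ℕ) × ℕ => z.2)
    (l := fun z : (((ℕ × List ℕ) × List ℕ) × ℕ) × ℕ => z.1.1.2) (by fun_prop) (by fun_prop)

theorem Nx_ex (L : ℕ → List ℕ) (a : ℕ × List ℕ) : ∃ S, Nx L a S := by
  refine ⟨(a.1 :: a.2) ++ (a.1 :: a.2).flatMap L, fun x hx => ⟨List.mem_append_left _ hx, ?_⟩⟩
  intro y hy
  exact List.mem_append_right _ (List.mem_flatMap.2 ⟨x, hx, hy⟩)

theorem unif_total {α β : Type*} [Primcodable α] [Primcodable β] {r : α → β → Prop}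
    (hr : REPred fun x : α × β => r x.1 x.2) (h : ∀ a, ∃ b, r a b) :
    ∃ f : α → β, Computable f ∧ ∀ a, r a (f a) := by
  obtain ⟨g, hg, h1, h2⟩ := RE.uniformize hr
  have hd : ∀ a, (g a).Dom := fun a => (h1 a).2 (h a)
  refine ⟨fun a => (g a).get (hd a), hg.of_eq_tot fun a => Part.get_mem _, fun a => ?_⟩
  exact h2 a _ (Part.get_mem _)

theorem exists_exhaustion (hL : Computable L) : ∃ S : ℕ → List ℕ, Computable S ∧ S 0 = [] ∧
    ∀ n, ∀ x, (x = n ∨ x ∈ S n) → x ∈ S (n + 1) ∧ ∀ y ∈ L x, y ∈ S (n + 1) := by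
  obtain ⟨F, hF, h⟩ := unif_total (Nx_re hL) (Nx_ex L)
  refine ⟨fun n => Nat.rec [] (fun n S => F (n, S)) n, ?_, rfl, ?_⟩
  · refine (Computable.nat_rec (f := fun n : ℕ => n) (g := fun _ => ([] : List ℕ))
      (h := fun (_ : ℕ) (x : ℕ × List ℕ) => F (x.1, x.2)) Computable.id (Computable.const _) ?_)
    exact (hF.comp (by fun_prop : Computable fun x : ℕ × (ℕ × List ℕ) => (x.2.1, x.2.2))).to₂
  · intro n x hx
    have := h (n, (Nat.rec [] (fun n S => F (n, S)) n : List ℕ)) x (by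
      rcases hx with rfl | hx
      · exact List.mem_cons_self
      · exact List.mem_cons_of_mem _ hx)
    exact this

/-- `T` is one side of a proper 2-colouring of the shell `A \ B`. -/
def Gd2 (L : ℕ → List ℕ) (A B T : List ℕ) : Prop :=
  ∀ x ∈ A, x ∈ B ∨ ∀ y ∈ L x, (y ∉ A ∨ y ∈ B) ∨ ((x ∈ T ∧ y ∉ T) ∨ (x ∉ T ∧ y ∈ T))

theorem Gd2_re (hL : Computable L) {S : ℕ → List ℕ} (hS : Computable S) :
    REPred fun x : ℕ × List ℕ => Gd2 L (S (x.1 + 1)) (S x.1) x.2 := by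
  unfold Gd2
  have hS1 : ∀ {α : Type} [Primcodable α] {f : α → ℕ}, Computable f →
      Computable fun a => S (f a) := fun hf => hS.comp hf
  refine RE.all_mem (p := fun (a : ℕ × List ℕ) (x : ℕ) => x ∈ S a.1 ∨ ∀ y ∈ L x,
    (y ∉ S (a.1 + 1) ∨ y ∈ S a.1) ∨ ((x ∈ a.2 ∧ y ∉ a.2) ∨ (x ∉ a.2 ∧ y ∈ a.2)))
    (l := fun a : ℕ × List ℕ => S (a.1 + 1)) ?_ (hS1 (by fun_prop))
  refine RE.or (RE.mem_list (f := fun z : (ℕ × List ℕ) × ℕ => z.2)
    (l := fun z : (ℕ × List ℕ) × ℕ => S z.1.1) (by fun_prop) (hS1 (by fun_prop))) ?_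
  refine RE.all_mem (p := fun (z : (ℕ × List ℕ) × ℕ) (y : ℕ) =>
    (y ∉ S (z.1.1 + 1) ∨ y ∈ S z.1.1) ∨ ((z.2 ∈ z.1.2 ∧ y ∉ z.1.2) ∨ (z.2 ∉ z.1.2 ∧ y ∈ z.1.2)))
    (l := fun z : (ℕ × List ℕ) × ℕ => L z.2) ?_ (by fun_prop)
  refine RE.or (RE.or ?_ ?_) (RE.or (RE.and ?_ ?_) (RE.and ?_ ?_))
  · exact RE.not_mem_list (f := fun w : ((ℕ × List ℕ) × ℕ) × ℕ => w.2)
      (l := fun w : ((ℕ × List ℕ) × ℕ) × ℕ => S (w.1.1.1 + 1)) (by fun_prop) (hS1 (by fun_prop))
  · exact RE.mem_list (f := fun w : ((ℕ × List ℕ) × ℕ) × ℕ => w.2)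
      (l := fun w : ((ℕ × List ℕ) × ℕ) × ℕ => S w.1.1.1) (by fun_prop) (hS1 (by fun_prop))
  · exact RE.mem_list (f := fun w : ((ℕ × List ℕ) × ℕ) × ℕ => w.1.2)
      (l := fun w : ((ℕ × List ℕ) × ℕ) × ℕ => w.1.1.2) (by fun_prop) (by fun_prop)
  · exact RE.not_mem_list (f := fun w : ((ℕ × List ℕ) × ℕ) × ℕ => w.2)
      (l := fun w : ((ℕ × List ℕ) × ℕ) × ℕ => w.1.1.2) (by fun_prop) (by fun_prop)
  · exact RE.not_mem_list (f := fun w : ((ℕ × List ℕ) × ℕ) × ℕ => w.1.2)
      (l := fun w : ((ℕ × List ℕ) × ℕ) × ℕ => w.1.1.2) (by fun_prop) (by fun_prop)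
  · exact RE.mem_list (f := fun w : ((ℕ × List ℕ) × ℕ) × ℕ => w.2)
      (l := fun w : ((ℕ × List ℕ) × ℕ) × ℕ => w.1.1.2) (by fun_prop) (by fun_prop)

/-- A 2-colourable highly computable graph has a computable 4-colouring. -/
theorem exists_colouring (hL : Computable L) (hsymm : ∀ x y, y ∈ L x → x ∈ L y)
    (col : ℕ → Bool) (hcol : ∀ x, ∀ y ∈ L x, col x ≠ col y) :
    ∃ c : ℕ → ℕ, Computable c ∧ (∀ x, c x < 4) ∧ ∀ x, ∀ y ∈ L x, c x ≠ c y := by
  obtain ⟨S, hS, hS0, hSn⟩ := exists_exhaustion hL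
  have hmono : ∀ m n, m ≤ n → ∀ x ∈ S m, x ∈ S n := by
    intro m n hmn x hx
    induction n, hmn using Nat.le_induction with
    | base => exact hx
    | succ n _ ih => exact (hSn n x (Or.inr ih)).1
  -- the 2-colourings of the shells
  obtain ⟨T, hT, hTg⟩ := unif_total (r := fun n T => Gd2 L (S (n + 1)) (S n) T)
      (Gd2_re hL hS) (fun n => by
    refine ⟨(S (n + 1)).filter fun x => col x, fun x hx => Or.inr fun y hy => ?_⟩
    by_cases hyS : y ∈ S (n + 1)
    · right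
      have := hcol x y hy
      simp only [List.mem_filter, hx, hyS, true_and]
      revert this
      cases col x <;> cases col y <;> simp
    · exact Or.inl (Or.inl hyS))
  -- the index of the shell
  have hlev_re : REPred fun p : ℕ × ℕ => p.1 ∈ S (p.2 + 1) ∧ p.1 ∉ S p.2 := by
    refine RE.and ?_ ?_
    · exact RE.mem_list (f := fun z : ℕ × ℕ => z.1) (l := fun z : ℕ × ℕ => S (z.2 + 1))
        (by fun_prop) (hS.comp (by fun_prop))
    · exact RE.not_mem_list (f := fun z : ℕ × ℕ => z.1) (l := fun z : ℕ × ℕ => S z.2)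
        (by fun_prop) (hS.comp (by fun_prop))
  obtain ⟨lev, hlev, hl⟩ := unif_total (r := fun x n => x ∈ S (n + 1) ∧ x ∉ S n) hlev_re (by
    classical
    intro x
    have hex : ∃ n, x ∈ S n := ⟨x + 1, (hSn x x (Or.inl rfl)).1⟩
    have h1 := Nat.find_spec hex
    have h2 : Nat.find hex ≠ 0 := by
      intro h
      rw [h, hS0] at h1
      simp at h1
    obtain ⟨m, hm⟩ := Nat.exists_eq_succ_of_ne_zero h2
    refine ⟨m, ?_, Nat.find_min hex (by omega)⟩
    rw [← Nat.succ_eq_add_one, ← hm]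
    exact h1)
  classical
  refine ⟨fun x => 2 * (lev x % 2) + if x ∈ T (lev x) then 1 else 0, ?_, ?_, ?_⟩
  · have h1 : Computable fun x => lev x % 2 := cmod2 hlev
    have h2 : Computable fun x : ℕ => if x ∈ T (lev x) then 1 else 0 :=
      RE.cite (RE.cp_mem (f := fun x : ℕ => x) (l := fun x => T (lev x)) (by fun_prop)
        (hT.comp hlev)) (by fun_prop) (by fun_prop)
    have h3 : Computable fun x => 2 * (lev x % 2) := RE.cmul (RE.cconst 2) h1
    exact RE.cadd h3 h2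
  · intro x
    dsimp only
    split_ifs <;> omega
  · intro x y hy heq
    dsimp only at heq
    have hx1 := hl x
    have hy1 := hl y
    have hxy : lev y ≤ lev x + 1 := by
      by_contra hcon
      push Not at hcon
      have h1 : y ∈ S (lev x + 2) := (hSn (lev x + 1) x (Or.inr hx1.1)).2 y hy
      exact hy1.2 (hmono _ _ hcon y h1)
    have hyx : lev x ≤ lev y + 1 := by
      by_contra hcon
      push Not at hcon
      have h1 : x ∈ S (lev y + 2) := (hSn (lev y + 1) y (Or.inr hy1.1)).2 x (hsymm x y hy)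
      exact hx1.2 (hmono _ _ hcon x h1)
    have hm : lev x % 2 = lev y % 2 := by
      split_ifs at heq <;> omega
    have hlv : lev x = lev y := by omega
    rw [← hlv] at heq hy1
    rcases hTg (lev x) x hx1.1 with h | h
    · exact hx1.2 h
    · rcases h y hy with (h | h) | (⟨h1, h2⟩ | ⟨h1, h2⟩)
      · exact h hy1.1
      · exact hy1.2 h
      · rw [if_pos h1, if_neg h2] at heq
        omega
      · rw [if_neg h1, if_pos h2] at heq
        omega

end colouring

/-- being a wrong code of a neighbour set is c.e. -/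
theorem wrong_re (G : SimpleGraph ℕ) (hG : ComputablePred (fun p : ℕ × ℕ => G.Adj p.1 p.2))
    (N : ℕ → Finset ℕ) (hN : ∀ x y, G.Adj x y ↔ y ∈ N x) :
    REPred fun p : ℕ × ℕ => encode ((N p.1).sort (α := ℕ)) ≠ p.2 := by
  let d : ℕ → List ℕ := fun v => (decode (α := List ℕ) v).getD []
  have hd : Computable d := Primrec.option_getD.to_comp.comp (by fun_prop) (by fun_prop)
  have hG' : ComputablePred (fun p : ℕ × ℕ => ¬ G.Adj p.1 p.2) := hG.not
  have h1 : REPred fun p : ℕ × ℕ => encode (d p.2) ≠ p.2 ∨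
      ((∃ z : (ℕ × ℕ) × (ℕ × ℕ), z.1.1 < z.1.2 ∧ (d p.2)[z.1.1]? = some z.2.1 ∧
        (d p.2)[z.1.2]? = some z.2.2 ∧ z.2.2 ≤ z.2.1) ∨
      ((∃ y ∈ d p.2, ¬ G.Adj p.1 y) ∨ ∃ y, G.Adj p.1 y ∧ y ∉ d p.2)) := by
    refine RE.or (RE.ne (RE.cencode (hd.comp Computable.snd)) (by fun_prop)) (RE.or ?_ (RE.or ?_ ?_))
    · refine RE.ex (p := fun (p : ℕ × ℕ) (z : (ℕ × ℕ) × (ℕ × ℕ)) => z.1.1 < z.1.2 ∧
        (d p.2)[z.1.1]? = some z.2.1 ∧ (d p.2)[z.1.2]? = some z.2.2 ∧ z.2.2 ≤ z.2.1) ?_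
      have hd' : Computable fun w : (ℕ × ℕ) × ((ℕ × ℕ) × (ℕ × ℕ)) => d w.1.2 :=
        hd.comp (by fun_prop)
      refine RE.and (RE.lt (by fun_prop) (by fun_prop)) (RE.and (RE.eq ?_ (by fun_prop))
        (RE.and (RE.eq ?_ (by fun_prop)) (RE.le (by fun_prop) (by fun_prop))))
      · exact RE.cgetElem hd' (by fun_prop)
      · exact RE.cgetElem hd' (by fun_prop)
    · exact RE.ex_mem (p := fun (p : ℕ × ℕ) (y : ℕ) => ¬ G.Adj p.1 y) (l := fun p : ℕ × ℕ => d p.2)
        (RE.comp hG'.to_re (f := fun z : (ℕ × ℕ) × ℕ => (z.1.1, z.2)) (by fun_prop))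
        (hd.comp Computable.snd)
    · refine RE.ex (p := fun (p : ℕ × ℕ) (y : ℕ) => G.Adj p.1 y ∧ y ∉ d p.2) ?_
      refine RE.and (RE.comp hG.to_re (f := fun z : (ℕ × ℕ) × ℕ => (z.1.1, z.2)) (by fun_prop)) ?_
      exact RE.not_mem_list (f := fun z : (ℕ × ℕ) × ℕ => z.2) (l := fun z : (ℕ × ℕ) × ℕ => d z.1.2)
        (by fun_prop) (hd.comp (by fun_prop))
  refine h1.of_eq fun p => ?_
  have hkey : (∀ y, y ∈ (N p.1).sort (α := ℕ) ↔ G.Adj p.1 y) := fun y => by
    rw [Finset.mem_sort, hN]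
  constructor
  · rintro (h | ⟨⟨⟨i, j⟩, a, b⟩, hij, hi, hj, hba⟩ | ⟨y, hy, hna⟩ | ⟨y, ha, hny⟩) heq
    · apply h
      simp only [d]
      rw [← heq, encodek, Option.getD_some]
    all_goals
      have e : (N p.1).sort (α := ℕ) = d p.2 := by
        simp only [d]; rw [← heq, encodek, Option.getD_some]
      rw [e] at hkey
    · have hs : ((N p.1).sort (α := ℕ)).Pairwise (· < ·) := (Finset.sortedLT_sort _).pairwise
      rw [e, List.pairwise_iff_getElem] at hs
      rw [List.getElem?_eq_some_iff] at hi hj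
      obtain ⟨hi1, hi2⟩ := hi
      obtain ⟨hj1, hj2⟩ := hj
      have := hs i j hi1 hj1 hij
      dsimp only at *
      omega
    · exact hna ((hkey y).1 hy)
    · exact hny ((hkey y).2 ha)
  · intro hne
    by_contra hcon
    push Not at hcon
    obtain ⟨h1, h2, h3, h4⟩ := hcon
    apply hne
    have hs : (d p.2).Pairwise (· < ·) := by
      rw [List.pairwise_iff_getElem]
      intro i j hi hj hij
      exact h2 ((i, j), ((d p.2)[i], (d p.2)[j])) hij (List.getElem?_eq_getElem hi)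
        (List.getElem?_eq_getElem hj)
    have e : (N p.1).sort (α := ℕ) = d p.2 := by
      have e1 : N p.1 = (d p.2).toFinset := by
        ext y
        rw [List.mem_toFinset, ← hN]
        exact ⟨fun h => h4 y h, fun h => h3 y h⟩
      rw [e1]
      exact (List.toFinset_sort _ (hs.imp fun h => ne_of_lt h)).2 (hs.imp fun h => le_of_lt h)
    rw [e]
    exact h1

/-- The main theorem: there is a noncomputable set `A` below the halting problem such that every
2-colourable computable graph whose neighbour sets are computable from `A` has a computable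
4-colouring. -/
theorem main : ∃ A : Set ℕ, ¬ ComputablePred (fun n => n ∈ A) ∧ Red A K ∧
    ∀ G : SimpleGraph ℕ, ComputablePred (fun p : ℕ × ℕ => G.Adj p.1 p.2) →
      ∀ N : ℕ → Finset ℕ, (∀ x y, G.Adj x y ↔ y ∈ N x) →
      TuringReducible (fun x : ℕ => Part.some (encode (N x))) (chi A) →
      ∀ col : ℕ → Bool, (∀ x y, G.Adj x y → col x ≠ col y) →
      ∃ c : ℕ → ℕ, Computable c ∧ (∀ x, c x < 4) ∧ ∀ x y, G.Adj x y → c x ≠ c y := by
  obtain ⟨A, hA, hgen⟩ := exists_gen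
  refine ⟨A, gen_not_computable hgen, hA, fun G hG N hN hT col hcol => ?_⟩
  have h1 : Computable fun x => encode ((N x).sort (α := ℕ)) :=
    gen_function hgen (turingReducible_fun_iff.1 hT) (wrong_re G hG N hN)
  have h2 : Computable fun x => (N x).sort (α := ℕ) := Computable.encode_iff.1 h1
  have hkey : ∀ x y, y ∈ (N x).sort (α := ℕ) ↔ G.Adj x y := fun x y => by
    rw [Finset.mem_sort, hN]
  obtain ⟨c, hc, h3, h4⟩ := exists_colouring h2
    (fun x y h => (hkey y x).2 ((hkey x y).1 h).symm) col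
    (fun x y h => hcol x y ((hkey x y).1 h))
  exact ⟨c, hc, h3, fun x y h => h4 x y ((hkey x y).2 h)⟩

end Pool.Agent.Q316.GC
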