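import Mathlib
import Pool.Agent.Helper59.AC1
import Pool.Agent.H38R3.Ellentuck

/-!
# Introreducible sets with hidden keys

For `κ : ℕ → ℕ` let `A κ` be the set of the numbers `⟨e, (κ 0, …, κ (n-1)) with κ e erased⟩`,
`e < n`.  We show, by the Ramsey property of open sets and the Baire property of analytic sets,
that for suitable `κ` no finite family of continuous operators can find the erased key `κ e`
from infinite subsets of the column `e`, for infinitely many `e`.
-/

open Set Topology Filter MeasureTheory Encodable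

namespace Pool.Agent.Q316.Intro

open Pool.Agent.H38R3.Ell Pool.Agent.Helper59

/-! ## Operators -/

/-- The first `n` bits of the characteristic function of `C`. -/
noncomputable def pre (C : Set ℕ) (n : ℕ) : List Bool :=
  open Classical in (List.range n).map fun i => decide (i ∈ C)

/-- `Φ^C(x) = b`: the operator given by `Φ` reads longer and longer initial segments of the
oracle `C` until it finds a first value. -/
def Ev (Φ : List Bool → ℕ → Option Bool) (C : Set ℕ) (x : ℕ) (b : Bool) : Prop :=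
  ∃ n, Φ (pre C n) x = some b ∧ ∀ m < n, Φ (pre C m) x = none

/-- `Φ^C = B`. -/
def Computes (Φ : List Bool → ℕ → Option Bool) (C B : Set ℕ) : Prop :=
  ∀ x, (x ∈ B → Ev Φ C x true) ∧ (x ∉ B → Ev Φ C x false)

theorem Ev.unique {Φ : List Bool → ℕ → Option Bool} {C : Set ℕ} {x : ℕ} {b b' : Bool}
    (h : Ev Φ C x b) (h' : Ev Φ C x b') : b = b' := by
  obtain ⟨n, h1, h2⟩ := h
  obtain ⟨m, h3, h4⟩ := h'
  rcases lt_trichotomy n m with hnm | hnm | hnm
  · rw [h4 n hnm] at h1; simp at h1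
  · subst hnm; rw [h1] at h3; simpa using h3
  · rw [h2 m hnm] at h3; simp at h3

theorem pre_congr {C C' : Set ℕ} {n : ℕ} (h : ∀ i < n, i ∈ C' ↔ i ∈ C) : pre C' n = pre C n := by
  classical
  unfold pre
  apply List.map_congr_left
  intro i hi
  simp only [List.mem_range] at hi
  simp only [h i hi]

theorem Ev.use {Φ : List Bool → ℕ → Option Bool} {C : Set ℕ} {x : ℕ} {b : Bool}
    (h : Ev Φ C x b) : ∃ u, ∀ C' : Set ℕ, (∀ i < u, i ∈ C' ↔ i ∈ C) → Ev Φ C' x b := by
  obtain ⟨n, h1, h2⟩ := h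
  refine ⟨n, fun C' hC => ⟨n, ?_, fun m hm => ?_⟩⟩
  · rw [pre_congr hC]; exact h1
  · rw [pre_congr fun i hi => hC i (hi.trans hm)]; exact h2 m hm

/-! ## The set -/

/-- `⟨e, (κ 0, …, κ (n-1)) with κ e erased⟩`. -/
def el (κ : ℕ → ℕ) (e n : ℕ) : ℕ :=
  encode (e, (List.range n).map fun j => if j = e then 0 else κ j)

/-- the value at `e` revealed by `x`, if `x` is not in column `e`. -/
def rev (e x : ℕ) : Option ℕ :=
  match (decode x : Option (ℕ × List ℕ)) with
  | some (e', l) => if e' = e then none else l[e]?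
  | none => none

/-- The set `A κ`. -/
def A (κ : ℕ → ℕ) : Set ℕ := {x | ∃ e n, e < n ∧ x = el κ e n}

/-- A part of a column. -/
def col (κ : ℕ → ℕ) (e : ℕ) (D : Set ℕ) : Set ℕ := {x | ∃ n ∈ D, e < n ∧ x = el κ e n}

theorem length_le_encode (l : List ℕ) : l.length ≤ encode l := by
  induction l with
  | nil => simp
  | cons a l ih =>
    rw [encode_list_cons, List.length_cons, Nat.succ_le_succ_iff]
    exact ih.trans (Nat.right_le_pair _ _)

theorem le_el (κ : ℕ → ℕ) (e n : ℕ) : n ≤ el κ e n := by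
  have h := length_le_encode ((List.range n).map fun j => if j = e then 0 else κ j)
  rw [List.length_map, List.length_range] at h
  refine h.trans ?_
  exact Nat.right_le_pair _ _

theorem rev_el (κ : ℕ → ℕ) (e e' n : ℕ) :
    rev e (el κ e' n) = if e' = e then none else if e < n then some (κ e) else none := by
  unfold rev el
  rw [encodek]
  by_cases h : e' = e
  · simp [h]
  · have h' : e ≠ e' := fun h2 => h h2.symm
    by_cases h2 : e < n
    · simp [h, h2, h']
    · simp [h, h2]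

theorem el_congr {κ κ' : ℕ → ℕ} {e n : ℕ} (h : ∀ i < n, i ≠ e → κ' i = κ i) :
    el κ' e n = el κ e n := by
  unfold el
  congr 2
  apply List.map_congr_left
  intro i hi
  simp only [List.mem_range] at hi
  by_cases h1 : i = e
  · simp [h1]
  · simp [h1, h i hi h1]

theorem col_update (κ : ℕ → ℕ) (e k : ℕ) (D : Set ℕ) :
    col (Function.update κ e k) e D = col κ e D := by
  unfold col
  have : ∀ n, el (Function.update κ e k) e n = el κ e n := fun n =>
    el_congr fun i _ hi => Function.update_of_ne hi _ _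
  simp only [this]

theorem col_agree {κ κ' : ℕ → ℕ} {e N : ℕ} {D D' : Set ℕ} (h : ∀ i < N, κ' i = κ i)
    (hD : ∀ i < N, i ∈ D' ↔ i ∈ D) : ∀ x < N, x ∈ col κ' e D' ↔ x ∈ col κ e D := by
  intro x hx
  constructor
  · rintro ⟨n, h1, h2, h3⟩
    have hn : n < N := (le_el κ' e n).trans_lt (h3 ▸ hx)
    exact ⟨n, (hD n hn).1 h1, h2, by rw [h3]; exact el_congr fun i hi _ => h i (hi.trans hn)⟩
  · rintro ⟨n, h1, h2, h3⟩
    have hn : n < N := (le_el κ e n).trans_lt (h3 ▸ hx)
    exact ⟨n, (hD n hn).2 h1, h2, by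
      rw [h3]; exact el_congr fun i hi _ => (h i (hi.trans hn)).symm⟩

theorem col_infinite {κ : ℕ → ℕ} {e : ℕ} {D : Set ℕ} (hD : D.Infinite) :
    (col κ e D).Infinite := by
  rw [Set.infinite_iff_exists_gt]
  intro a
  obtain ⟨n, hn, h⟩ := (Set.infinite_iff_exists_gt.1 hD) (max a e)
  exact ⟨el κ e n, ⟨n, hn, (le_max_right _ _).trans_lt h, rfl⟩,
    ((le_max_left _ _).trans_lt h).trans_le (le_el κ e n)⟩

/-! ## Answers -/

/-- `Φ^C` answers `k` for the erased key of column `e`. -/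
def Ans (Φ : List Bool → ℕ → Option Bool) (e : ℕ) (C : Set ℕ) (k : ℕ) : Prop :=
  ∃ x, rev e x = some k ∧ Ev Φ C x true ∧ ∀ y < x, rev e y = none ∨ Ev Φ C y false

theorem Ans.unique {Φ : List Bool → ℕ → Option Bool} {e : ℕ} {C : Set ℕ} {k k' : ℕ}
    (h : Ans Φ e C k) (h' : Ans Φ e C k') : k = k' := by
  obtain ⟨x, h1, h2, h3⟩ := h
  obtain ⟨x', h1', h2', h3'⟩ := h'
  rcases lt_trichotomy x x' with hx | hx | hx
  · rcases h3' x hx with h | h
    · rw [h] at h1; simp at h1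
    · simpa using h2.unique h
  · subst hx; rw [h1] at h1'; simpa using h1'
  · rcases h3 x' hx with h | h
    · rw [h] at h1'; simp at h1'
    · simpa using h2'.unique h

theorem Ans.use {Φ : List Bool → ℕ → Option Bool} {e : ℕ} {C : Set ℕ} {k : ℕ}
    (h : Ans Φ e C k) : ∃ u, ∀ C' : Set ℕ, (∀ i < u, i ∈ C' ↔ i ∈ C) → Ans Φ e C' k := by
  obtain ⟨x, h1, h2, h3⟩ := h
  obtain ⟨u, hu⟩ := h2.use
  have h4 : ∀ y, ∃ v, ∀ C' : Set ℕ, (∀ i < v, i ∈ C' ↔ i ∈ C) → y < x →
      rev e y = none ∨ Ev Φ C' y false := by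
    intro y
    by_cases hy : y < x
    · rcases h3 y hy with h | h
      · exact ⟨0, fun _ _ _ => Or.inl h⟩
      · obtain ⟨v, hv⟩ := h.use
        exact ⟨v, fun C' hC _ => Or.inr (hv C' hC)⟩
    · exact ⟨0, fun _ _ h => absurd h hy⟩
  choose v hv using h4
  refine ⟨max u ((Finset.range x).sup v), fun C' hC => ⟨x, h1, hu C' fun i hi =>
    hC i (lt_max_of_lt_left hi), fun y hy => hv y C' (fun i hi => hC i ?_) hy⟩⟩
  exact lt_max_of_lt_right (hi.trans_le (Finset.le_sup (f := v) (Finset.mem_range.2 hy)))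

/-- A correct operator answers the key. -/
theorem ans_of_computes {Φ : List Bool → ℕ → Option Bool} {κ : ℕ → ℕ} {C B : Set ℕ} {e : ℕ}
    (h : Computes Φ C B) (hB : B ⊆ A κ) (hx : ∃ x ∈ B, rev e x ≠ none) : Ans Φ e C (κ e) := by
  classical
  obtain ⟨h1, h2⟩ := Nat.find_spec hx
  have h3 := fun y hy => Nat.find_min hx (m := y) hy
  set x := Nat.find hx with hxdef
  refine ⟨x, ?_, (h x).1 h1, fun y hy => ?_⟩
  · obtain ⟨e', n, h4, h5⟩ := hB h1
    rw [h5, rev_el] at h2 ⊢
    by_cases h6 : e' = e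
    · simp [h6] at h2
    · by_cases h7 : e < n
      · simp [h6, h7]
      · simp [h7] at h2
  · have := h3 y hy
    by_cases h4 : y ∈ B
    · left
      by_contra h5
      exact this ⟨h4, h5⟩
    · exact Or.inr ((h y).2 h4)

/-! ## Ramsey -/

section ramsey

variable {ι : Type} [Fintype ι]

/-- `κ` is good at `e` for the family `Φ` -/
def Good (Φ : ι → List Bool → ℕ → Option Bool) (κ : ℕ → ℕ) (e : ℕ) : Prop :=
  ∃ M : Set ℕ, M.Infinite ∧ ∀ D ⊆ M, D.Infinite → ∀ i, ¬ Ans (Φ i) e (col κ e D) (κ e)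

theorem eo_ans (Φ : List Bool → ℕ → Option Bool) (κ : ℕ → ℕ) (e k : ℕ) :
    EO {D | Ans Φ e (col κ e D) k} := by
  classical
  intro z hz hzi
  obtain ⟨u, hu⟩ := Ans.use hz
  let t : Finset ℕ := (Finset.range u).filter (· ∈ z)
  have ht : ∀ n, n ∈ t ↔ n < u ∧ n ∈ z := by intro n; simp [t]
  refine ⟨t, ⟨hzi, fun n hn => ((ht n).1 hn).2, fun n hn => ?_⟩, fun w hw => ?_⟩
  · by_cases h : n < u
    · exact Or.inl ((ht n).2 ⟨h, hn⟩)
    · exact Or.inr ⟨hn, fun m hm => ((ht m).1 hm).1.trans_le (not_lt.1 h)⟩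
  · refine hu _ (col_agree (fun _ _ => rfl) fun i hi => ⟨fun h => ?_, fun h => ?_⟩)
    · rcases hw.2.2 i h with h | h
      · exact ((ht i).1 h).2
      · exact h.1
    · exact hw.2.1 i ((ht i).2 ⟨hi, h⟩)

/-- a bad key: every infinite set of lengths has an infinite subset answering it -/
def Bad (Φ : ι → List Bool → ℕ → Option Bool) (κ : ℕ → ℕ) (e k : ℕ) : Prop :=
  ∀ M : Set ℕ, M.Infinite → ∃ D ⊆ M, D.Infinite ∧ ∃ i, Ans (Φ i) e (col κ e D) k

theorem bad_homog {Φ : ι → List Bool → ℕ → Option Bool} {κ : ℕ → ℕ} {e k : ℕ}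
    (h : Bad Φ κ e k) {M : Set ℕ} (hM : M.Infinite) :
    ∃ N ⊆ M, N.Infinite ∧ ∃ i, ∀ D ⊆ N, D.Infinite → Ans (Φ i) e (col κ e D) k := by
  classical
  by_contra hcon
  push Not at hcon
  have key : ∀ s : Finset ι, ∃ N ⊆ M, N.Infinite ∧ ∀ i ∈ s, ∀ D ⊆ N, D.Infinite →
      ¬ Ans (Φ i) e (col κ e D) k := by
    intro s
    induction s using Finset.induction_on with
    | empty => exact ⟨M, subset_rfl, hM, by simp⟩
    | insert i s hi ih =>
      obtain ⟨N, h1, h2, h3⟩ := ih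
      obtain ⟨Y, h4, h5, h6⟩ := (eo_ans (Φ i) κ e k).cr ∅ N h2
      have hNb : ∀ D : Set ℕ, D ⊆ Y → D.Infinite → D ∈ Nb ∅ Y := by
        intro D hD hDi
        exact ⟨hDi, by simp, fun n hn => Or.inr (by rw [above_empty]; exact hD hn)⟩
      refine ⟨Y, h4.trans h1, h5, fun j hj D hD hDi => ?_⟩
      rcases Finset.mem_insert.1 hj with rfl | hj
      · rcases h6 with h6 | h6
        · obtain ⟨D', h7, h8, h9⟩ := hcon Y (h4.trans h1) h5 j
          exact absurd (h6 D' (hNb D' h7 h8)) h9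
        · exact h6 D (hNb D hD hDi)
      · exact h3 j hj D (hD.trans h4) hDi
  obtain ⟨N, h1, h2, h3⟩ := key Finset.univ
  obtain ⟨D, h4, h5, i, h6⟩ := h N h2
  exact h3 i (Finset.mem_univ i) D h4 h5 h6

theorem bad_card {Φ : ι → List Bool → ℕ → Option Bool} {κ : ℕ → ℕ} {e : ℕ} (s : Finset ℕ)
    (h : ∀ k ∈ s, Bad Φ κ e k) : s.card ≤ Fintype.card ι := by
  classical
  have key : ∀ s : Finset ℕ, (∀ k ∈ s, Bad Φ κ e k) → ∃ N : Set ℕ, N.Infinite ∧ ∀ k ∈ s, ∃ i,
      ∀ D ⊆ N, D.Infinite → Ans (Φ i) e (col κ e D) k := by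
    intro s
    induction s using Finset.induction_on with
    | empty => exact fun _ => ⟨univ, infinite_univ, by simp⟩
    | insert k s hk ih =>
      intro h
      obtain ⟨N, h1, h2⟩ := ih fun k' hk' => h k' (Finset.mem_insert_of_mem hk')
      obtain ⟨N', h3, h4, i, h5⟩ := bad_homog (h k (Finset.mem_insert_self _ _)) h1
      refine ⟨N', h4, fun k' hk' => ?_⟩
      rcases Finset.mem_insert.1 hk' with rfl | hk'
      · exact ⟨i, h5⟩
      · obtain ⟨j, hj⟩ := h2 k' hk'
        exact ⟨j, fun D hD hDi => hj D (hD.trans h3) hDi⟩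
  obtain ⟨N, h1, h2⟩ := key s h
  rcases s.eq_empty_or_nonempty with rfl | ⟨k0, hk0⟩
  · simp
  have : Nonempty ι := ⟨(h2 k0 hk0).choose⟩
  choose! g hg using h2
  by_contra hcon
  push Not at hcon
  obtain ⟨k, hk, k', hk', hne, heq⟩ := Finset.exists_ne_map_eq_of_card_lt_of_maps_to
    (s := s) (t := (Finset.univ : Finset ι)) (by simpa using hcon) (f := g)
    (fun k _ => Finset.mem_univ _)
  have h3 := hg k hk N subset_rfl h1
  have h4 := hg k' hk' N subset_rfl h1
  rw [heq] at h3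
  exact hne (h3.unique h4)

/-! ## Category -/

/-- Parametrisation of the infinite sets. -/
def gg (f : ℕ → ℕ) (i : ℕ) : ℕ := (∑ j ∈ Finset.range (i + 1), f j) + i

def Mf (f : ℕ → ℕ) : Set ℕ := range (gg f)

theorem gg_mono (f : ℕ → ℕ) : StrictMono (gg f) := by
  refine strictMono_nat_of_lt_succ fun i => ?_
  unfold gg
  rw [Finset.sum_range_succ _ (i + 1)]
  omega

theorem Mf_infinite (f : ℕ → ℕ) : (Mf f).Infinite :=
  Set.infinite_range_of_injective (gg_mono f).injective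

theorem exists_Mf {M : Set ℕ} (hM : M.Infinite) : ∃ f, Mf f = M := by
  classical
  have hM' : {n | n ∈ M}.Infinite := hM
  let g := Nat.nth (· ∈ M)
  have hg : StrictMono g := Nat.nth_strictMono hM'
  have hr : range g = M := by
    have := Nat.range_nth_of_infinite hM'
    simpa [g] using this
  let f : ℕ → ℕ := fun i => match i with
    | 0 => g 0
    | i + 1 => g (i + 1) - (g i + 1)
  have hf : ∀ i, gg f i = g i := by
    intro i
    induction i with
    | zero => simp [gg, f]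
    | succ i ih =>
      have h1 : gg f (i + 1) = gg f i + f (i + 1) + 1 := by
        unfold gg
        rw [Finset.sum_range_succ _ (i + 1)]
        omega
      rw [h1, ih]
      have h2 : g i < g (i + 1) := hg (Nat.lt_succ_self i)
      have h3 : f (i + 1) = g (i + 1) - (g i + 1) := rfl
      omega
  refine ⟨f, ?_⟩
  rw [← hr]
  unfold Mf
  congr 1
  exact funext hf

theorem Mf_agree {f f' : ℕ → ℕ} {N : ℕ} (h : ∀ i < N, f' i = f i) :
    ∀ i < N, i ∈ Mf f' ↔ i ∈ Mf f := by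
  have key : ∀ f f' : ℕ → ℕ, (∀ i < N, f' i = f i) → ∀ i < N, i ∈ Mf f' → i ∈ Mf f := by
    rintro f f' h i hi ⟨j, rfl⟩
    have hj : j < N := ((gg_mono f').id_le j).trans_lt hi
    refine ⟨j, ?_⟩
    unfold gg
    congr 1
    exact Finset.sum_congr rfl fun k hk => (h k (by simp at hk; omega)).symm
  exact fun i hi => ⟨key f f' h i hi, key f' f (fun i hi => (h i hi).symm) i hi⟩

theorem isOpen_of_agree {S : Set ((ℕ → ℕ) × (ℕ → ℕ))}
    (h : ∀ p ∈ S, ∃ N, ∀ p' : (ℕ → ℕ) × (ℕ → ℕ), (∀ i < N, p'.1 i = p.1 i ∧ p'.2 i = p.2 i) →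
      p' ∈ S) : IsOpen S := by
  rw [isOpen_iff_mem_nhds]
  intro p hp
  obtain ⟨N, hN⟩ := h p hp
  have h1 : IsOpen {p' : (ℕ → ℕ) × (ℕ → ℕ) | ∀ i ∈ Finset.range N,
      p'.1 i = p.1 i ∧ p'.2 i = p.2 i} := by
    have : {p' : (ℕ → ℕ) × (ℕ → ℕ) | ∀ i ∈ Finset.range N, p'.1 i = p.1 i ∧ p'.2 i = p.2 i} =
        ⋂ i ∈ Finset.range N, {p' | p'.1 i = p.1 i ∧ p'.2 i = p.2 i} := by
      ext p'; simp
    rw [this]
    refine isOpen_biInter_finset fun i _ => ?_
    refine IsOpen.inter (t := {p' : (ℕ → ℕ) × (ℕ → ℕ) | p'.2 i = p.2 i}) ?_ ?_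
    · exact (isOpen_discrete {p.1 i}).preimage (by fun_prop)
    · exact (isOpen_discrete {p.2 i}).preimage (by fun_prop)
  exact Filter.mem_of_superset (h1.mem_nhds (by simp)) fun p' hp' =>
    hN p' fun i hi => hp' i (Finset.mem_range.2 hi)

omit [Fintype ι] in
theorem good_analytic (Φ : ι → List Bool → ℕ → Option Bool) (e : ℕ) :
    AnalyticSet {κ | Good Φ κ e} := by
  classical
  let P : Set ((ℕ → ℕ) × (ℕ → ℕ)) := {p | ∀ D ⊆ Mf p.2, D.Infinite → ∀ i,
    ¬ Ans (Φ i) e (col p.1 e D) (p.1 e)}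
  have hP : IsClosed P := by
    rw [← isOpen_compl_iff]
    refine isOpen_of_agree ?_
    intro p hp
    have hp' : ∃ D ⊆ Mf p.2, D.Infinite ∧ ∃ i, Ans (Φ i) e (col p.1 e D) (p.1 e) := by
      by_contra hcon
      push Not at hcon
      exact hp hcon
    obtain ⟨D, h1, h2, i, h3⟩ := hp'
    obtain ⟨u, hu⟩ := h3.use
    refine ⟨max u (e + 1), fun p' hp' hP => ?_⟩
    have hke : p'.1 e = p.1 e := (hp' e (lt_max_of_lt_right (Nat.lt_succ_self e))).1
    let D' : Set ℕ := {n | if n < max u (e + 1) then n ∈ D else n ∈ Mf p'.2}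
    have hD' : ∀ n < max u (e + 1), n ∈ D' ↔ n ∈ D := by
      intro n hn
      simp only [D', mem_ofPred_eq, if_pos hn]
    have h4 : D' ⊆ Mf p'.2 := by
      intro n hn
      by_cases h : n < max u (e + 1)
      · exact (Mf_agree (fun i hi => (hp' i hi).2) n h).2 (h1 ((hD' n h).1 hn))
      · simpa only [D', mem_ofPred_eq, if_neg h] using hn
    have h5 : D'.Infinite := by
      rw [Set.infinite_iff_exists_gt]
      intro a
      obtain ⟨n, hn, hn'⟩ := (Set.infinite_iff_exists_gt.1 (Mf_infinite p'.2))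
        (max a (max u (e + 1)))
      refine ⟨n, ?_, (le_max_left _ _).trans_lt hn'⟩
      have : ¬ n < max u (e + 1) := not_lt.2 ((le_max_right _ _).trans hn'.le)
      simpa only [D', mem_ofPred_eq, if_neg this] using hn
    refine hP D' h4 h5 i ?_
    rw [hke]
    exact hu _ fun x hx => col_agree (fun i hi => (hp' i hi).1) hD' x (lt_max_of_lt_left hx)
  have h1 : {κ | Good Φ κ e} = Prod.fst '' P := by
    ext κ
    constructor
    · rintro ⟨M, hM, h⟩
      obtain ⟨f, rfl⟩ := exists_Mf hM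
      exact ⟨(κ, f), h, rfl⟩
    · rintro ⟨⟨κ', f⟩, h, rfl⟩
      exact ⟨Mf f, Mf_infinite f, h⟩
  rw [h1]
  exact (hP.analyticSet).image_of_continuous continuous_fst

/-- the set of good `κ` -/
def Gd (Φ : ι → List Bool → ℕ → Option Bool) (e0 : ℕ) : Set (ℕ → ℕ) :=
  {κ | ∃ e ≥ e0, Good Φ κ e}

theorem gd_analytic (Φ : ι → List Bool → ℕ → Option Bool) (e0 : ℕ) :
    AnalyticSet (Gd Φ e0) := by
  have : Gd Φ e0 = ⋃ n : ℕ, {κ | Good Φ κ (e0 + n)} := by
    ext κ
    simp only [Gd, mem_ofPred_eq, mem_iUnion]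
    constructor
    · rintro ⟨e, he, h⟩
      exact ⟨e - e0, by rw [Nat.add_sub_cancel' he]; exact h⟩
    · rintro ⟨n, h⟩
      exact ⟨e0 + n, by omega, h⟩
  rw [this]
  exact AnalyticSet.iUnion fun n => good_analytic Φ _

theorem bp' (s : Set (ℕ → ℕ)) (hs : AnalyticSet s) : IsMeagre (AC.K s \ s) := by
  let _ : MetricSpace (ℕ → ℕ) := TopologicalSpace.metrizableSpaceMetric _
  exact AC.bp s hs

/-- the permutation of the keys -/
def tw (e j : ℕ) (κ : ℕ → ℕ) : ℕ → ℕ := Function.update κ e (κ e ^^^ j)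

theorem tw_tw (e j : ℕ) (κ : ℕ → ℕ) : tw e j (tw e j κ) = κ := by
  unfold tw
  simp

theorem continuous_tw (e j : ℕ) : Continuous (tw e j) := by
  unfold tw
  refine continuous_id.update e ?_
  exact (continuous_of_discreteTopology (f := fun v : ℕ => v ^^^ j)).comp (continuous_apply e)

theorem meagre_tw (e j : ℕ) {s : Set (ℕ → ℕ)} (hs : IsMeagre s) : IsMeagre (tw e j ⁻¹' s) := by
  let H : (ℕ → ℕ) ≃ₜ (ℕ → ℕ) :=
    { toFun := tw e j
      invFun := tw e j
      left_inv := tw_tw e j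
      right_inv := tw_tw e j
      continuous_toFun := continuous_tw e j
      continuous_invFun := continuous_tw e j }
  exact hs.preimage_of_isOpenMap H.continuous H.isOpenMap

theorem gd_comeagre (Φ : ι → List Bool → ℕ → Option Bool) (e0 : ℕ) :
    IsMeagre (Gd Φ e0)ᶜ := by
  classical
  have hK : AC.K (Gd Φ e0) = univ := by
    by_contra hcon
    obtain ⟨κ, hκ⟩ := (ne_univ_iff_exists_notMem _).1 hcon
    have hκ' : ∃ V : Set (ℕ → ℕ), IsOpen V ∧ κ ∈ V ∧ IsMeagre (Gd Φ e0 ∩ V) := by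
      by_contra hcon
      push Not at hcon
      exact hκ hcon
    obtain ⟨V, hV, hκV, hm⟩ := hκ'
    obtain ⟨N, hN⟩ : ∃ N, ∀ κ' : ℕ → ℕ, (∀ i < N, κ' i = κ i) → κ' ∈ V := by
      obtain ⟨I, u, h1, h2⟩ := isOpen_pi_iff.1 hV κ hκV
      refine ⟨I.sup id + 1, fun κ' h => h2 fun i hi => ?_⟩
      rw [h i (Nat.lt_succ_of_le (Finset.le_sup (f := id) hi))]
      exact (h1 i hi).2
    set e := max e0 N with he
    have h1 : IsMeagre (⋃ j : ℕ, tw e j ⁻¹' (Gd Φ e0 ∩ V)) :=
      isMeagre_iUnion fun j => meagre_tw e j hm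
    have h2 : IsOpen {κ' : ℕ → ℕ | ∀ i ∈ Finset.range N, κ' i = κ i} := by
      have : {κ' : ℕ → ℕ | ∀ i ∈ Finset.range N, κ' i = κ i} =
          ⋂ i ∈ Finset.range N, {κ' | κ' i = κ i} := by
        ext p'; simp
      rw [this]
      exact isOpen_biInter_finset fun i _ =>
        (isOpen_discrete ({κ i} : Set ℕ)).preimage
          (continuous_apply (A := fun _ : ℕ => ℕ) i)
    have h3 : ∃ κ', (∀ i ∈ Finset.range N, κ' i = κ i) ∧
        κ' ∉ ⋃ j : ℕ, tw e j ⁻¹' (Gd Φ e0 ∩ V) := by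
      have hd := dense_of_mem_residual (s := (⋃ j : ℕ, tw e j ⁻¹' (Gd Φ e0 ∩ V))ᶜ) h1
      obtain ⟨κ', h3, h4⟩ := hd.inter_open_nonempty _ h2 ⟨κ, by simp⟩
      exact ⟨κ', h3, h4⟩
    obtain ⟨κ', h3, h4⟩ := h3
    have h5 : ∀ j, ¬ Good Φ (tw e j κ') e := by
      intro j hj
      refine h4 (mem_iUnion.2 ⟨j, ⟨e, le_max_left _ _, hj⟩, hN _ fun i hi => ?_⟩)
      have hie : i ≠ e := by
        have : N ≤ e := le_max_right _ _
        omega
      unfold tw
      rw [Function.update_of_ne hie]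
      exact h3 i (Finset.mem_range.2 hi)
    have h6 : ∀ j, Bad Φ κ' e (κ' e ^^^ j) := by
      intro j M hM
      have := h5 j
      unfold Good at this
      push Not at this
      obtain ⟨D, h7, h8, i, h9⟩ := this M hM
      refine ⟨D, h7, h8, i, ?_⟩
      unfold tw at h9
      rw [col_update, Function.update_self] at h9
      exact h9
    have h7 := bad_card (Φ := Φ) (κ := κ') (e := e)
      ((Finset.range (Fintype.card ι + 1)).image fun j => κ' e ^^^ j) (by
        intro k hk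
        obtain ⟨j, _, rfl⟩ := Finset.mem_image.1 hk
        exact h6 j)
    rw [Finset.card_image_of_injective _ (fun a b h => by simpa using h), Finset.card_range] at h7
    omega
  have h := bp' _ (gd_analytic Φ e0)
  rw [hK] at h
  have h8 : (Gd Φ e0)ᶜ ⊆ univ \ Gd Φ e0 := fun x hx => ⟨mem_univ _, hx⟩
  exact h.mono h8

end ramsey

theorem countable_computable :
    {Φ : List Bool → ℕ → Option Bool | Computable₂ Φ}.Countable := by
  have hc : ∀ Φ : List Bool → ℕ → Option Bool, Computable₂ Φ → ∃ c : Nat.Partrec.Code,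
      c.eval = fun n => Part.bind (Part.ofOption (decode (α := List Bool × ℕ) n))
        fun a => (Part.some (Φ a.1 a.2)).map encode := by
    intro f hf
    obtain ⟨c, hc⟩ := Nat.Partrec.Code.exists_code.1 hf
    exact ⟨c, hc⟩
  choose! c hc using hc
  refine Set.MapsTo.countable_of_injOn (f := c) (t := univ) (fun _ _ => mem_univ _) ?_
    (Set.to_countable _)
  intro f hf g hg hfg
  have h1 := hc f hf
  rw [hfg, hc g hg] at h1
  funext σ x
  have h2 := congrFun h1 (encode (σ, x))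
  simp only [encodek, Part.coe_some, Part.bind_some, Part.map_some, Part.some_inj] at h2
  exact (encode_injective h2).symm

/-- There is `κ` which is good for all finite families of Turing operators. -/
theorem exists_kappa : ∃ κ : ℕ → ℕ, ∀ (n : ℕ) (Φ : Fin n → List Bool → ℕ → Option Bool),
    (∀ i, Computable₂ (Φ i)) → ∀ e0, ∃ e ≥ e0, Good Φ κ e := by
  classical
  have hcc : Countable {Φ : List Bool → ℕ → Option Bool | Computable₂ Φ} :=
    countable_computable.to_subtype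
  have h : IsMeagre (⋃ p : (Σ n : ℕ, (Fin n → {Φ : List Bool → ℕ → Option Bool |
      Computable₂ Φ})) × ℕ, (Gd (fun i => (p.1.2 i).1) p.2)ᶜ) := by
    exact isMeagre_iUnion fun p => gd_comeagre _ _
  have hd := dense_of_mem_residual (s := (⋃ p : (Σ n : ℕ, (Fin n → {Φ : List Bool → ℕ → Option Bool |
      Computable₂ Φ})) × ℕ, (Gd (fun i => (p.1.2 i).1) p.2)ᶜ)ᶜ) h
  obtain ⟨κ, hκ⟩ := hd.nonempty
  refine ⟨κ, fun n Φ hΦ e0 => ?_⟩
  by_contra hcon
  exact hκ (mem_iUnion.2 ⟨(⟨n, fun i => ⟨Φ i, hΦ i⟩⟩, e0), hcon⟩)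

end Pool.Agent.Q316.Intro
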