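import Pool.Agent.Q316.IntroTuring

/-!
# Uniform versions, and enumeration operators on the sets `A κ`
-/

open Set Encodable

namespace Pool.Agent.Q316.Intro

open Pool.Agent.Helper578.JD Pool.Agent.Helper578.JD.Oracle Pool.Agent.Helper578.JD.Defs

theorem exists_approx_unif {R : ℕ → List ℕ × List ℕ → Prop}
    (hR : REPred fun p : ℕ × (List ℕ × List ℕ) => R p.1 p.2) :
    ∃ g : List Bool × ℕ → ℕ → Bool, Computable₂ g ∧ ∀ (C : Set ℕ) (x : ℕ),
      (∃ c, R x c ∧ Ok C c) ↔ ∃ n s, g (pre C n, x) s = true := by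
  have h1 : REPred fun p : List Bool × ℕ => ∃ c, R p.2 c ∧ OkS p.1 c := by
    refine RE.ex (p := fun (p : List Bool × ℕ) (c : List ℕ × List ℕ) => R p.2 c ∧ OkS p.1 c) ?_
    refine RE.and (RE.comp hR (f := fun p : (List Bool × ℕ) × (List ℕ × List ℕ) => (p.1.2, p.2))
      (by fun_prop)) (RE.and ?_ ?_)
    · exact RE.all_mem (p := fun (p : (List Bool × ℕ) × (List ℕ × List ℕ)) (y : ℕ) =>
        p.1.1[y]? = some true) (l := fun p => p.2.1) (RE.eq (by fun_prop) (by fun_prop))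
        (by fun_prop)
    · exact RE.all_mem (p := fun (p : (List Bool × ℕ) × (List ℕ × List ℕ)) (y : ℕ) =>
        p.1.1[y]? = some false) (l := fun p => p.2.2) (RE.eq (by fun_prop) (by fun_prop))
        (by fun_prop)
  obtain ⟨g, hg, h2⟩ := RE.re_iff.1 h1
  refine ⟨g, hg, fun C x => ?_⟩
  constructor
  · rintro ⟨c, h3, h4⟩
    obtain ⟨n, hn⟩ := ok_pre h4
    obtain ⟨s, hs⟩ := (h2 (pre _ n, x)).1 ⟨c, h3, hn⟩
    exact ⟨n, s, hs⟩
  · rintro ⟨n, s, hs⟩
    obtain ⟨c, h3, h4⟩ := (h2 (pre _ n, x)).2 ⟨s, hs⟩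
    exact ⟨c, h3, okS_pre h4⟩

/-- A set that, together with its complement, is uniformly c.e. in all `C ∈ 𝒞` is computed by one
operator from all `C ∈ 𝒞`. -/
theorem computes_of_re {R R' : ℕ → List ℕ × List ℕ → Prop}
    (hR : REPred fun p : ℕ × (List ℕ × List ℕ) => R p.1 p.2)
    (hR' : REPred fun p : ℕ × (List ℕ × List ℕ) => R' p.1 p.2) {B : Set ℕ} {𝒞 : Set (Set ℕ)}
    (hB : ∀ C ∈ 𝒞, ∀ x, x ∈ B ↔ ∃ c, R x c ∧ Ok C c)
    (hB' : ∀ C ∈ 𝒞, ∀ x, x ∉ B ↔ ∃ c, R' x c ∧ Ok C c) :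
    ∃ Φ : List Bool → ℕ → Option Bool, Computable₂ Φ ∧ ∀ C ∈ 𝒞, Computes Φ C B := by
  obtain ⟨g, hg, hh1⟩ := exists_approx_unif hR
  obtain ⟨g', hg', hh2⟩ := exists_approx_unif hR'
  have hc := computable_bs hg
  have hc' := computable_bs hg'
  let Φ : List Bool → ℕ → Option Bool := fun σ x =>
    cond (bs g σ x) (some true) (cond (bs g' σ x) (some false) none)
  refine ⟨Φ, ?_, fun C hC => ?_⟩
  · exact Computable.cond hc (by fun_prop) (Computable.cond hc' (by fun_prop) (by fun_prop))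
  have h1 := fun x => (hB C hC x).trans (hh1 C x)
  have h2 := fun x => (hB' C hC x).trans (hh2 C x)
  have h3 : ∀ n x, Φ (pre C n) x = some true → x ∈ B := by
    intro n x hx
    by_cases hb : bs g (pre C n) x = true
    · obtain ⟨m, _, s, _, h⟩ := bs_iff.1 hb
      exact (h1 x).2 ⟨m, s, h⟩
    · simp only [Φ, hb] at hx
      cases hb' : bs g' (pre C n) x <;> simp [hb'] at hx
  have h4 : ∀ n x, Φ (pre C n) x = some false → x ∉ B := by
    intro n x hx
    by_cases hb : bs g (pre C n) x = true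
    · simp [Φ, hb] at hx
    · simp only [Φ, hb] at hx
      by_cases hb' : bs g' (pre C n) x = true
      · obtain ⟨m, _, s, _, h⟩ := bs_iff.1 hb'
        exact (h2 x).2 ⟨m, s, h⟩
      · simp [hb'] at hx
  have h5 : ∀ x, ∃ n, Φ (pre C n) x ≠ none := by
    intro x
    by_cases hx : x ∈ B
    · obtain ⟨m, s, h⟩ := (h1 x).1 hx
      refine ⟨max m s, ?_⟩
      have hb : bs g (pre C (max m s)) x = true :=
        bs_iff.2 ⟨m, le_max_left _ _, s, le_max_right _ _, h⟩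
      simp [Φ, hb]
    · obtain ⟨m, s, h⟩ := (h2 x).1 hx
      refine ⟨max m s, ?_⟩
      have hb : bs g' (pre C (max m s)) x = true :=
        bs_iff.2 ⟨m, le_max_left _ _, s, le_max_right _ _, h⟩
      cases hb' : bs g (pre C (max m s)) x <;> simp [Φ, hb, hb']
  have h6 : ∀ x, ∃ b, Ev Φ C x b := by
    classical
    intro x
    obtain ⟨b, hb⟩ := Option.ne_none_iff_exists'.1 (Nat.find_spec (h5 x))
    exact ⟨b, Nat.find (h5 x), hb, fun m hm => by simpa using Nat.find_min (h5 x) hm⟩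
  refine fun x => ⟨fun hx => ?_, fun hx => ?_⟩
  · obtain ⟨b, hb⟩ := h6 x
    cases b
    · obtain ⟨n, h, _⟩ := hb
      exact absurd hx (h4 n x h)
    · exact hb
  · obtain ⟨b, hb⟩ := h6 x
    cases b
    · exact hb
    · obtain ⟨n, h, _⟩ := hb
      exact absurd (h3 n x h) hx

/-- the enumeration operator `Θ` applied to `X` -/
def eop (Θ : Set (List ℕ × ℕ)) (X : Set ℕ) : Set ℕ := {n | ∃ D, (D, n) ∈ Θ ∧ ∀ y ∈ D, y ∈ X}

/-- If one enumeration operator maps all `C ∈ 𝒞` to `A κ` then one Turing operator does. -/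
theorem computes_of_eop {κ : ℕ → ℕ} {Θ : Set (List ℕ × ℕ)} (hΘ : REPred fun p => p ∈ Θ)
    {𝒞 : Set (Set ℕ)} (h : ∀ C ∈ 𝒞, eop Θ C = A κ) :
    ∃ Φ : List Bool → ℕ → Option Bool, Computable₂ Φ ∧ ∀ C ∈ 𝒞, Computes Φ C (A κ) := by
  have hR : REPred fun p : ℕ × (List ℕ × List ℕ) => (p.2.1, p.1) ∈ Θ ∧ p.2.2 = [] :=
    RE.and (RE.comp hΘ (f := fun p : ℕ × (List ℕ × List ℕ) => (p.2.1, p.1)) (by fun_prop))
      (RE.eq (by fun_prop) (by fun_prop))
  have hR' : REPred fun p : ℕ × (List ℕ × List ℕ) => p.2.2 = [] ∧ ∃ q : ℕ × List ℕ,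
      encode q = p.1 ∧ (q.2.length ≤ q.1 ∨ ∃ j, j < q.2.length ∧ ((j = q.1 ∧ q.2[j]? ≠ some 0) ∨
        (j ≠ q.1 ∧ ∃ v, (∃ q' : ℕ × List ℕ, (p.2.1, encode q') ∈ Θ ∧ q'.1 ≠ j ∧
          q'.2[j]? = some v) ∧ q.2[j]? ≠ some v))) := by
    refine RE.and (RE.eq (by fun_prop) (by fun_prop)) ?_
    refine RE.ex (p := fun (p : ℕ × (List ℕ × List ℕ)) (q : ℕ × List ℕ) =>
      encode q = p.1 ∧ (q.2.length ≤ q.1 ∨ ∃ j, j < q.2.length ∧ ((j = q.1 ∧ q.2[j]? ≠ some 0) ∨
        (j ≠ q.1 ∧ ∃ v, (∃ q' : ℕ × List ℕ, (p.2.1, encode q') ∈ Θ ∧ q'.1 ≠ j ∧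
          q'.2[j]? = some v) ∧ q.2[j]? ≠ some v)))) ?_
    refine RE.and (RE.eq (by fun_prop) (by fun_prop)) (RE.or (RE.le (by fun_prop) (by fun_prop)) ?_)
    refine RE.ex (p := fun (x : (ℕ × (List ℕ × List ℕ)) × (ℕ × List ℕ)) (j : ℕ) =>
      j < x.2.2.length ∧ ((j = x.2.1 ∧ x.2.2[j]? ≠ some 0) ∨
        (j ≠ x.2.1 ∧ ∃ v, (∃ q' : ℕ × List ℕ, (x.1.2.1, encode q') ∈ Θ ∧ q'.1 ≠ j ∧
          q'.2[j]? = some v) ∧ x.2.2[j]? ≠ some v))) ?_
    refine RE.and (RE.lt (by fun_prop) (by fun_prop)) (RE.or (RE.and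
      (RE.eq (by fun_prop) (by fun_prop)) (RE.ne (by fun_prop) (by fun_prop)))
      (RE.and (RE.ne (by fun_prop) (by fun_prop)) ?_))
    refine RE.ex (p := fun (x : ((ℕ × (List ℕ × List ℕ)) × (ℕ × List ℕ)) × ℕ) (v : ℕ) =>
      (∃ q' : ℕ × List ℕ, (x.1.1.2.1, encode q') ∈ Θ ∧ q'.1 ≠ x.2 ∧
          q'.2[x.2]? = some v) ∧ x.1.2.2[x.2]? ≠ some v) ?_
    refine RE.and ?_ (RE.ne (by fun_prop) (by fun_prop))
    refine RE.ex (p := fun (x : (((ℕ × (List ℕ × List ℕ)) × (ℕ × List ℕ)) × ℕ) × ℕ)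
      (q' : ℕ × List ℕ) => (x.1.1.1.2.1, encode q') ∈ Θ ∧ q'.1 ≠ x.1.2 ∧
          q'.2[x.1.2]? = some x.2) ?_
    refine RE.and (RE.comp hΘ (f := fun p : ((((ℕ × (List ℕ × List ℕ)) × (ℕ × List ℕ)) × ℕ) × ℕ) ×
      (ℕ × List ℕ) => (p.1.1.1.1.2.1, encode p.2)) (by fun_prop))
      (RE.and (RE.ne (by fun_prop) (by fun_prop)) (RE.eq (by fun_prop) (by fun_prop)))
  refine computes_of_re (R := fun x c => (c.1, x) ∈ Θ ∧ c.2 = []) (R' := fun x c => c.2 = [] ∧
    ∃ q : ℕ × List ℕ, encode q = x ∧ (q.2.length ≤ q.1 ∨ ∃ j, j < q.2.length ∧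
        ((j = q.1 ∧ q.2[j]? ≠ some 0) ∨ (j ≠ q.1 ∧ ∃ v, (∃ q' : ℕ × List ℕ,
          (c.1, encode q') ∈ Θ ∧ q'.1 ≠ j ∧ q'.2[j]? = some v) ∧ q.2[j]? ≠ some v)))) hR hR' ?_ ?_
  · intro C hC x
    rw [← h C hC]
    constructor
    · rintro ⟨D, h1, h2⟩
      exact ⟨(D, []), ⟨h1, rfl⟩, h2, by simp⟩
    · rintro ⟨c, ⟨h1, -⟩, h3⟩
      exact ⟨c.1, h1, h3.1⟩
  · intro C hC x
    constructor
    · intro hx
      obtain ⟨q, rfl⟩ : ∃ q : ℕ × List ℕ, encode q = x :=
        ⟨Denumerable.ofNat (ℕ × List ℕ) x, Denumerable.encode_ofNat x⟩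
      by_cases h1 : q.2.length ≤ q.1
      · exact ⟨([], []), ⟨rfl, q, rfl, Or.inl h1⟩, by simp, by simp⟩
      by_cases h2 : ∃ j, j < q.2.length ∧ j = q.1 ∧ q.2[j]? ≠ some 0
      · obtain ⟨j, hj, h3, h4⟩ := h2
        exact ⟨([], []), ⟨rfl, q, rfl, Or.inr ⟨j, hj, Or.inl ⟨h3, h4⟩⟩⟩, by simp, by simp⟩
      by_cases h3 : ∃ j, j < q.2.length ∧ j ≠ q.1 ∧ q.2[j]? ≠ some (κ j)
      · obtain ⟨j, hj, h4, h5⟩ := h3
        have h6 : el κ (j + 1) (j + 2) ∈ eop Θ C := by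
          rw [h C hC]; exact ⟨j + 1, j + 2, by omega, rfl⟩
        obtain ⟨D, h7, h8⟩ := h6
        refine ⟨(D, []), ⟨rfl, q, rfl, Or.inr ⟨j, hj, Or.inr ⟨h4, κ j,
          ⟨(j + 1, (List.range (j + 2)).map fun i => if i = j + 1 then 0 else κ i), h7,
            by simp, ?_⟩, h5⟩⟩⟩, h8, by simp⟩
        have : j < j + 2 := by omega
        simp [this]
      exfalso
      push Not at h1 h2 h3
      refine hx (mem_A_iff.2 ⟨q, rfl, h1, fun j hj => ?_⟩)
      by_cases h4 : j = q.1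
      · exact Or.inl ⟨h4, h2 j hj h4⟩
      · exact Or.inr ⟨h4, κ j, rfl, h3 j hj h4⟩
    · rintro ⟨c, ⟨-, q, rfl, h1⟩, h2⟩ h3
      obtain ⟨q', h4, h5, h6⟩ := mem_A_iff.1 h3
      have := encode_injective h4
      subst this
      rcases h1 with h1 | ⟨j, h7, h8⟩
      · omega
      · rcases h8 with ⟨h9, h10⟩ | ⟨h9, v, ⟨q, h10, h11, h12⟩, h13⟩
        · rcases h6 j h7 with ⟨h11, h12⟩ | ⟨h11, -⟩
          · exact h10 h12
          · exact h11 h9
        · rcases h6 j h7 with ⟨h14, -⟩ | ⟨h14, w, h15, h16⟩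
          · exact h9 h14
          · have h17 : encode q ∈ A κ := by
              rw [← h C hC]; exact ⟨c.1, h10, h2.1⟩
            obtain ⟨e, n, -, h18⟩ := h17
            obtain ⟨h19, h20⟩ := el_eq_encode h18
            rw [h20] at h12
            have h21 := getElem?_el h12 (by rw [← h19]; exact fun h => h11 h.symm)
            rw [← h15, h21] at h16
            exact h13 h16

/-- `A κ` is introenumerable. -/
theorem introenumerable_A {κ : ℕ → ℕ} {C : Set ℕ} (hC : C ⊆ A κ) (hi : C.Infinite) :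
    ∃ Θ : Set (List ℕ × ℕ), (REPred fun p => p ∈ Θ) ∧ eop Θ C = A κ := by
  by_cases hcase : ∃ e, ∀ N, ∃ n > N, el κ e n ∈ C
  · obtain ⟨e, he⟩ := hcase
    let P : ℕ → ℕ × List ℕ → ℕ × List ℕ → Prop := fun x l q => encode q = x ∧
        q.1 < q.2.length ∧ q.2.length < l.2.length ∧ l.1 = e ∧ ∀ j < q.2.length,
        (j = q.1 ∧ q.2[j]? = some 0) ∨
        (j ≠ q.1 ∧ ((j = e ∧ q.2[j]? = some (κ e)) ∨ (j ≠ e ∧ q.2[j]? = l.2[j]?)))
    refine ⟨{p | ∃ l : ℕ × List ℕ, p.1 = [encode l] ∧ ∃ q : ℕ × List ℕ, P p.2 l q}, ?_, ?_⟩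
    · refine RE.ex (p := fun (p : List ℕ × ℕ) (l : ℕ × List ℕ) => p.1 = [encode l] ∧
        ∃ q : ℕ × List ℕ, P p.2 l q) ?_
      refine RE.and (RE.eq (by fun_prop) (by fun_prop)) ?_
      refine RE.ex (p := fun (p : (List ℕ × ℕ) × (ℕ × List ℕ)) (q : ℕ × List ℕ) =>
        P p.1.2 p.2 q) ?_
      refine RE.and (RE.eq (by fun_prop) (by fun_prop)) (RE.and (RE.lt (by fun_prop)
        (by fun_prop)) (RE.and (RE.lt (by fun_prop) (by fun_prop)) (RE.and (RE.eq (by fun_prop)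
        (by fun_prop)) ?_)))
      refine RE.all_lt (p := fun (x : ((List ℕ × ℕ) × (ℕ × List ℕ)) × (ℕ × List ℕ)) (j : ℕ) =>
        (j = x.2.1 ∧ x.2.2[j]? = some 0) ∨
        (j ≠ x.2.1 ∧ ((j = e ∧ x.2.2[j]? = some (κ e)) ∨ (j ≠ e ∧ x.2.2[j]? = x.1.2.2[j]?)))) ?_
        (f := fun x => x.2.2.length) (by fun_prop)
      exact RE.or (RE.and (RE.eq (by fun_prop) (by fun_prop)) (RE.eq (by fun_prop) (by fun_prop)))
        (RE.and (RE.ne (by fun_prop) (by fun_prop)) (RE.or (RE.and (RE.eq (by fun_prop)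
        (by fun_prop)) (RE.eq (by fun_prop) (by fun_prop))) (RE.and (RE.ne (by fun_prop)
        (by fun_prop)) (RE.eq (by fun_prop) (by fun_prop)))))
    · ext x
      constructor
      · rintro ⟨D, ⟨l, h1, q, h2, h3, h4, h5, h6⟩, h7⟩
        have h8 : encode l ∈ C := h7 _ (by rw [show D = [encode l] from h1]; simp)
        obtain ⟨e', n, -, h9⟩ := hC h8
        obtain ⟨h10, h11⟩ := el_eq_encode h9
        refine mem_A_iff.2 ⟨q, h2, h3, fun j hj => ?_⟩
        rcases h6 j hj with h | ⟨h, h12 | ⟨h12, h13⟩⟩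
        · exact Or.inl h
        · exact Or.inr ⟨h, κ j, rfl, by rw [h12.2, h12.1]⟩
        · refine Or.inr ⟨h, κ j, rfl, ?_⟩
          rw [h13, h11]
          have h14 : l.2.length = n := by rw [h11]; simp
          have h15 : j < n := by omega
          have h16 : j ≠ e' := by rw [← h10, h5]; exact h12
          simp [h15, h16]
      · intro hx
        obtain ⟨q, h1, h2, h3⟩ := mem_A_iff.1 hx
        obtain ⟨n, hn, h4⟩ := he q.2.length
        let l : ℕ × List ℕ := (e, (List.range n).map fun j => if j = e then 0 else κ j)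
        refine ⟨[encode l], ⟨l, rfl, q, h1, h2, by simpa [l] using hn, rfl, fun j hj => ?_⟩, ?_⟩
        · rcases h3 j hj with h | ⟨h, v, h5, h6⟩
          · exact Or.inl h
          · refine Or.inr ⟨h, ?_⟩
            by_cases h7 : j = e
            · left; exact ⟨h7, by rw [h6, ← h5, h7]⟩
            · right
              refine ⟨h7, ?_⟩
              have h8 : j < n := by omega
              rw [h6, ← h5]
              simp [l, h7, h8]
        · intro y hy
          have : y = encode l := by simpa using hy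
          rw [this]
          exact h4
  · push Not at hcase
    let P : ℕ → ℕ × List ℕ → ℕ × List ℕ → Prop := fun x l q => encode q = x ∧
        q.1 < q.2.length ∧ q.2.length < l.1 ∧ ∀ j < q.2.length,
        (j = q.1 ∧ q.2[j]? = some 0) ∨ (j ≠ q.1 ∧ q.2[j]? = l.2[j]?)
    refine ⟨{p | ∃ l : ℕ × List ℕ, p.1 = [encode l] ∧ ∃ q : ℕ × List ℕ, P p.2 l q}, ?_, ?_⟩
    · refine RE.ex (p := fun (p : List ℕ × ℕ) (l : ℕ × List ℕ) => p.1 = [encode l] ∧
        ∃ q : ℕ × List ℕ, P p.2 l q) ?_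
      refine RE.and (RE.eq (by fun_prop) (by fun_prop)) ?_
      refine RE.ex (p := fun (p : (List ℕ × ℕ) × (ℕ × List ℕ)) (q : ℕ × List ℕ) =>
        P p.1.2 p.2 q) ?_
      refine RE.and (RE.eq (by fun_prop) (by fun_prop)) (RE.and (RE.lt (by fun_prop)
        (by fun_prop)) (RE.and (RE.lt (by fun_prop) (by fun_prop)) ?_))
      refine RE.all_lt (p := fun (x : ((List ℕ × ℕ) × (ℕ × List ℕ)) × (ℕ × List ℕ)) (j : ℕ) =>
        (j = x.2.1 ∧ x.2.2[j]? = some 0) ∨
        (j ≠ x.2.1 ∧ x.2.2[j]? = x.1.2.2[j]?)) ?_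
        (f := fun x => x.2.2.length) (by fun_prop)
      exact RE.or (RE.and (RE.eq (by fun_prop) (by fun_prop)) (RE.eq (by fun_prop) (by fun_prop)))
        (RE.and (RE.ne (by fun_prop) (by fun_prop)) (RE.eq (by fun_prop) (by fun_prop)))
    · ext x
      constructor
      · rintro ⟨D, ⟨l, h1, q, h2, h3, h4, h6⟩, h7⟩
        have h8 : encode l ∈ C := h7 _ (by rw [show D = [encode l] from h1]; simp)
        obtain ⟨e', n, h12, h9⟩ := hC h8
        obtain ⟨h10, h11⟩ := el_eq_encode h9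
        refine mem_A_iff.2 ⟨q, h2, h3, fun j hj => ?_⟩
        rcases h6 j hj with h | ⟨h, h13⟩
        · exact Or.inl h
        · refine Or.inr ⟨h, κ j, rfl, ?_⟩
          rw [h13, h11]
          have h15 : j < n := by omega
          have h16 : j ≠ e' := by omega
          simp [h15, h16]
      · intro hx
        obtain ⟨q, h1, h2, h3⟩ := mem_A_iff.1 hx
        choose N hN using hcase
        have h5 : ∃ e n, q.2.length < e ∧ e < n ∧ el κ e n ∈ C := by
          by_contra hcon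
          push Not at hcon
          refine hi (((Finset.range (q.2.length + 1)).biUnion fun e =>
            (Finset.range (N e + 1)).image fun n => el κ e n).finite_toSet.subset ?_)
          intro x hx
          obtain ⟨e, n, h1, h2⟩ := hC hx
          have h3 : e < q.2.length + 1 := by
            by_contra h
            exact hcon e n (by omega) h1 (h2 ▸ hx)
          have h4 : n < N e + 1 := by
            by_contra h
            exact hN e n (by omega) (h2 ▸ hx)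
          simp only [Finset.coe_biUnion, Finset.coe_image, mem_iUnion, mem_image, Finset.mem_coe,
            Finset.mem_range]
          exact ⟨e, h3, n, h4, h2.symm⟩
        obtain ⟨e, n, h6, h7, h8⟩ := h5
        let l : ℕ × List ℕ := (e, (List.range n).map fun j => if j = e then 0 else κ j)
        refine ⟨[encode l], ⟨l, rfl, q, h1, h2, h6, fun j hj => ?_⟩, ?_⟩
        · rcases h3 j hj with h | ⟨h, v, h5, h6'⟩
          · exact Or.inl h
          · refine Or.inr ⟨h, ?_⟩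
            have h9 : j < n := by omega
            have h10 : j ≠ e := by omega
            rw [h6', ← h5]
            simp [l, h9, h10]
        · intro y hy
          have : y = encode l := by simpa using hy
          rw [this]
          exact h8

end Pool.Agent.Q316.Intro
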