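import Pool.Agent.Q316.Intro
import Pool.Agent.Helper578.JD.Oracle

/-!
# The operators of `Q316/Intro.lean` are the Turing operators; `A κ` is introreducible
-/

open Set Encodable

namespace Pool.Agent.Q316.Intro

open Pool.Agent.Helper578.JD Pool.Agent.Helper578.JD.Oracle Pool.Agent.Helper578.JD.Defs

theorem computable_take : Computable fun p : List Bool × ℕ => p.1.take p.2 := by
  refine RE.computable_of_graph ?_
  have h : REPred fun x : (List Bool × ℕ) × List Bool =>
      x.2.length = min x.1.2 x.1.1.length ∧ ∀ i < x.2.length, x.2[i]? = x.1.1[i]? := by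
    refine RE.and (RE.eq (by fun_prop) (by fun_prop)) ?_
    exact RE.all_lt (p := fun (x : (List Bool × ℕ) × List Bool) (i : ℕ) => x.2[i]? = x.1.1[i]?)
      (RE.eq (by fun_prop) (by fun_prop)) (f := fun x => x.2.length) (by fun_prop)
  refine h.of_eq fun x => ?_
  obtain ⟨⟨l, n⟩, r⟩ := x
  simp only
  constructor
  · rintro ⟨h1, h2⟩
    apply List.ext_getElem?
    intro i
    by_cases hi : i < r.length
    · rw [h2 i hi, List.getElem?_take_of_lt (by omega)]
    · rw [List.getElem?_eq_none (l := r) (by omega), List.getElem?_eq_none]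
      simp; omega
  · rintro rfl
    refine ⟨by simp, fun i hi => ?_⟩
    simp only [List.length_take] at hi
    rw [List.getElem?_take_of_lt (by omega)]

theorem length_pre (C : Set ℕ) (n : ℕ) : (pre C n).length = n := by simp [pre]

theorem getElem?_pre (C : Set ℕ) {n i : ℕ} (hi : i < n) (b : Bool) :
    (pre C n)[i]? = some b ↔ (b = true ∧ i ∈ C) ∨ (b = false ∧ i ∉ C) := by
  classical
  unfold pre
  simp only [List.getElem?_map, List.getElem?_range hi, Option.map_some, Option.some.injEq]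
  by_cases h : i ∈ C
  · simp [h, eq_comm]
  · simp [h, eq_comm]

theorem take_pre (C : Set ℕ) {n m : ℕ} (h : m ≤ n) : (pre C n).take m = pre C m := by
  classical
  unfold pre
  rw [← List.map_take, List.take_range, min_eq_left h]

theorem eq_pre {C : Set ℕ} {σ : List Bool} (h : ∀ i < σ.length,
    (σ[i]? = some true ∧ i ∈ C) ∨ (σ[i]? = some false ∧ i ∉ C)) : σ = pre C σ.length := by
  apply List.ext_getElem?
  intro i
  by_cases hi : i < σ.length
  · rcases h i hi with ⟨h1, h2⟩ | ⟨h1, h2⟩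
    · rw [h1]; exact ((getElem?_pre C hi true).2 (Or.inl ⟨rfl, h2⟩)).symm
    · rw [h1]; exact ((getElem?_pre C hi false).2 (Or.inr ⟨rfl, h2⟩)).symm
  · rw [List.getElem?_eq_none (by omega), List.getElem?_eq_none (by rw [length_pre]; omega)]

theorem ev_REIn {Φ : List Bool → ℕ → Option Bool} (hΦ : Computable₂ Φ) (C : Set ℕ) (b : Bool) :
    REIn C fun x : ℕ => Ev Φ C x b := by
  have hΦ' : Computable fun p : List Bool × ℕ => Φ p.1 p.2 := hΦ
  have h : REIn C fun x : ℕ => ∃ σ : List Bool, (∀ i < σ.length,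
      (σ[i]? = some true ∧ i ∈ C) ∨ (σ[i]? = some false ∧ i ∉ C)) ∧ Φ σ x = some b ∧
      ∀ m < σ.length, Φ (σ.take m) x = none := by
    refine REIn.ex (S := fun (x : ℕ) (σ : List Bool) => (∀ i < σ.length,
      (σ[i]? = some true ∧ i ∈ C) ∨ (σ[i]? = some false ∧ i ∉ C)) ∧ Φ σ x = some b ∧
      ∀ m < σ.length, Φ (σ.take m) x = none) ?_
    refine REIn.and ?_ (REIn.of_re (RE.and ?_ ?_))
    · refine REIn.all_lt (S := fun (x : ℕ × List Bool) (i : ℕ) =>
        (x.2[i]? = some true ∧ i ∈ C) ∨ (x.2[i]? = some false ∧ i ∉ C)) ?_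
        (f := fun x => x.2.length) (by fun_prop)
      refine REIn.or (REIn.and (REIn.of_re (RE.eq (by fun_prop) (by fun_prop)))
        (REIn.mem (by fun_prop))) (REIn.and (REIn.of_re (RE.eq (by fun_prop) (by fun_prop)))
        (REIn.not_mem (by fun_prop)))
    · exact RE.eq (hΦ'.comp (f := fun p : List Bool × ℕ => Φ p.1 p.2)
        (g := fun x : ℕ × List Bool => (x.2, x.1)) (by fun_prop)) (by fun_prop)
    · refine RE.all_lt (p := fun (x : ℕ × List Bool) (m : ℕ) => Φ (x.2.take m) x.1 = none) ?_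
        (f := fun x => x.2.length) (by fun_prop)
      refine RE.eq (hΦ'.comp (f := fun p : List Bool × ℕ => Φ p.1 p.2)
        (g := fun x : (ℕ × List Bool) × ℕ => (x.1.2.take x.2, x.1.1)) ?_) (by fun_prop)
      exact (computable_take.comp (g := fun x : (ℕ × List Bool) × ℕ => (x.1.2, x.2))
        (by fun_prop)).pair (by fun_prop)
  refine h.of_eq fun x => ?_
  constructor
  · rintro ⟨σ, h1, h2, h3⟩
    have h4 := eq_pre h1
    refine ⟨σ.length, by rw [← h4]; exact h2, fun m hm => ?_⟩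
    rw [← take_pre C hm.le, ← h4]
    exact h3 m hm
  · rintro ⟨n, h1, h2⟩
    refine ⟨pre C n, fun i hi => ?_, h1, fun m hm => ?_⟩
    · rw [length_pre] at hi
      rw [getElem?_pre C hi, getElem?_pre C hi]
      by_cases h : i ∈ C <;> simp [h]
    · rw [length_pre] at hm
      rw [take_pre C hm.le]
      exact h2 m hm

theorem turing_of_computes {Φ : List Bool → ℕ → Option Bool} (hΦ : Computable₂ Φ) {C B : Set ℕ}
    (h : Computes Φ C B) : TuringReducible (chi B) (chi C) := by
  rw [turingReducible_iff]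
  constructor
  · refine (ev_REIn hΦ C true).of_eq fun x => ⟨fun hx => ?_, (h x).1⟩
    by_contra hcon
    simpa using hx.unique ((h x).2 hcon)
  · refine (ev_REIn hΦ C false).of_eq fun x => ⟨fun hx hcon => ?_, (h x).2⟩
    simpa using hx.unique ((h x).1 hcon)

/-- finite information correct for a binary string -/
def OkS (σ : List Bool) (c : List ℕ × List ℕ) : Prop :=
  (∀ y ∈ c.1, σ[y]? = some true) ∧ ∀ y ∈ c.2, σ[y]? = some false

theorem okS_pre {C : Set ℕ} {n : ℕ} {c : List ℕ × List ℕ} (h : OkS (pre C n) c) : Ok C c := by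
  have key : ∀ y b, (pre C n)[y]? = some b → (b = true ∧ y ∈ C) ∨ (b = false ∧ y ∉ C) := by
    intro y b hy
    have hyn : y < n := by
      have := (List.getElem?_eq_some_iff.1 hy).1
      rwa [length_pre] at this
    exact (getElem?_pre C hyn b).1 hy
  refine ⟨fun y hy => ?_, fun y hy => ?_⟩
  · have := key y true (h.1 y hy); simpa using this
  · have := key y false (h.2 y hy); simpa using this

theorem ok_pre {C : Set ℕ} {c : List ℕ × List ℕ} (h : Ok C c) : ∃ n, OkS (pre C n) c := by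
  have hle : ∀ y ∈ c.1 ++ c.2, y < (c.1 ++ c.2).sum + 1 := fun y hy =>
    Nat.lt_succ_of_le (List.single_le_sum (fun _ _ => Nat.zero_le _) y hy)
  refine ⟨(c.1 ++ c.2).sum + 1, fun y hy => ?_, fun y hy => ?_⟩
  · exact (getElem?_pre C (hle y (List.mem_append_left _ hy)) true).2 (Or.inl ⟨rfl, h.1 y hy⟩)
  · exact (getElem?_pre C (hle y (List.mem_append_right _ hy)) false).2 (Or.inr ⟨rfl, h.2 y hy⟩)

theorem exists_approx {C : Set ℕ} {S : ℕ → Prop} (h : REIn C S) :
    ∃ g : List Bool × ℕ → ℕ → Bool, Computable₂ g ∧ (∀ (C' : Set ℕ), C' = C →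
      (∀ x, S x ↔ ∃ n s, g (pre C' n, x) s = true)) := by
  obtain ⟨R, hR, h⟩ := h
  have h1 : REPred fun p : List Bool × ℕ => ∃ c, R p.2 c ∧ OkS p.1 c := by
    refine RE.ex (p := fun (p : List Bool × ℕ) (c : List ℕ × List ℕ) => R p.2 c ∧ OkS p.1 c) ?_
    refine RE.and (RE.comp hR (f := fun p : (List Bool × ℕ) × (List ℕ × List ℕ) => (p.1.2, p.2))
      (by fun_prop)) (RE.and ?_ ?_)
    · exact RE.all_mem (p := fun (p : (List Bool × ℕ) × (List ℕ × List ℕ)) (y : ℕ) =>
        p.1.1[y]? = some true) (l := fun p => p.2.1) (RE.eq (by fun_prop) (by fun_prop))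
        (by fun_prop)
    · exact RE.all_mem (p := fun (p : (List Bool × ℕ) × (List ℕ × List ℕ)) (y : ℕ) =>
        p.1.1[y]? = some false) (l := fun p => p.2.2) (RE.eq (by fun_prop) (by fun_prop))
        (by fun_prop)
  obtain ⟨g, hg, h2⟩ := RE.re_iff.1 h1
  refine ⟨g, hg, ?_⟩
  rintro _ rfl x
  rw [h x]
  constructor
  · rintro ⟨c, h3, h4⟩
    obtain ⟨n, hn⟩ := ok_pre h4
    obtain ⟨s, hs⟩ := (h2 (pre _ n, x)).1 ⟨c, h3, hn⟩
    exact ⟨n, s, hs⟩
  · rintro ⟨n, s, hs⟩
    obtain ⟨c, h3, h4⟩ := (h2 (pre _ n, x)).2 ⟨s, hs⟩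
    exact ⟨c, h3, okS_pre h4⟩

/-- bounded search -/
def bs (g : List Bool × ℕ → ℕ → Bool) (σ : List Bool) (x : ℕ) : Bool :=
  RE.exB (fun m => RE.exB (fun s => g (σ.take m, x) s) (σ.length + 1)) (σ.length + 1)

theorem computable_bs {g : List Bool × ℕ → ℕ → Bool} (hg : Computable₂ g) :
    Computable fun p : List Bool × ℕ => bs g p.1 p.2 := by
  unfold bs
  refine RE.computable_exB (α := List Bool × ℕ)
    (q := fun p m => RE.exB (fun s => g (p.1.take m, p.2) s) (p.1.length + 1)) ?_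
    (f := fun p => p.1.length + 1) (by fun_prop)
  refine RE.computable_exB (α := (List Bool × ℕ) × ℕ)
    (q := fun p s => g (p.1.1.take p.2, p.1.2) s) ?_ (f := fun p => p.1.1.length + 1)
    (by fun_prop)
  refine hg.comp (f := g) (g := fun p : ((List Bool × ℕ) × ℕ) × ℕ =>
    (p.1.1.1.take p.1.2, p.1.1.2)) (h := fun p => p.2) ?_ Computable.snd
  exact (computable_take.comp (g := fun p : ((List Bool × ℕ) × ℕ) × ℕ => (p.1.1.1, p.1.2))
    (by fun_prop)).pair (by fun_prop)

theorem bs_iff {g : List Bool × ℕ → ℕ → Bool} {C : Set ℕ} {n x : ℕ} :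
    bs g (pre C n) x = true ↔ ∃ m ≤ n, ∃ s ≤ n, g (pre C m, x) s = true := by
  unfold bs
  simp only [RE.exB_iff, length_pre]
  constructor
  · rintro ⟨m, hm, s, hs, h⟩
    rw [take_pre C (by omega)] at h
    exact ⟨m, by omega, s, by omega, h⟩
  · rintro ⟨m, hm, s, hs, h⟩
    refine ⟨m, by omega, s, by omega, ?_⟩
    rw [take_pre C hm]
    exact h

/-- Turing reducibility is computability by one of our operators. -/
theorem turing_iff {C B : Set ℕ} : TuringReducible (chi B) (chi C) ↔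
    ∃ Φ : List Bool → ℕ → Option Bool, Computable₂ Φ ∧ Computes Φ C B := by
  constructor
  · intro h
    rw [turingReducible_iff] at h
    obtain ⟨g, hg, h1⟩ := exists_approx h.1
    obtain ⟨g', hg', h2⟩ := exists_approx h.2
    have h1 := h1 C rfl
    have h2 := h2 C rfl
    have hc := computable_bs hg
    have hc' := computable_bs hg'
    let Φ : List Bool → ℕ → Option Bool := fun σ x =>
      cond (bs g σ x) (some true) (cond (bs g' σ x) (some false) none)
    have h3 : ∀ n x, Φ (pre C n) x = some true → x ∈ B := by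
      intro n x hx
      by_cases hb : bs g (pre C n) x = true
      · obtain ⟨m, _, s, _, h⟩ := bs_iff.1 hb
        exact (h1 x).2 ⟨m, s, h⟩
      · simp only [Φ, hb] at hx
        cases hb' : bs g' (pre C n) x <;> simp [hb'] at hx
    have h4 : ∀ n x, Φ (pre C n) x = some false → x ∉ B := by
      intro n x hx
      by_cases hb : bs g (pre C n) x = true
      · simp [Φ, hb] at hx
      · simp only [Φ, hb] at hx
        by_cases hb' : bs g' (pre C n) x = true
        · obtain ⟨m, _, s, _, h⟩ := bs_iff.1 hb'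
          exact (h2 x).2 ⟨m, s, h⟩
        · simp [hb'] at hx
    have h5 : ∀ x, ∃ n, Φ (pre C n) x ≠ none := by
      intro x
      by_cases hx : x ∈ B
      · obtain ⟨m, s, h⟩ := (h1 x).1 hx
        refine ⟨max m s, ?_⟩
        have hb : bs g (pre C (max m s)) x = true :=
          bs_iff.2 ⟨m, le_max_left _ _, s, le_max_right _ _, h⟩
        simp [Φ, hb]
      · obtain ⟨m, s, h⟩ := (h2 x).1 hx
        refine ⟨max m s, ?_⟩
        have hb : bs g' (pre C (max m s)) x = true :=
          bs_iff.2 ⟨m, le_max_left _ _, s, le_max_right _ _, h⟩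
        cases hb' : bs g (pre C (max m s)) x <;> simp [Φ, hb, hb']
    have h6 : ∀ x, ∃ b, Ev Φ C x b := by
      classical
      intro x
      obtain ⟨b, hb⟩ := Option.ne_none_iff_exists'.1 (Nat.find_spec (h5 x))
      exact ⟨b, Nat.find (h5 x), hb, fun m hm => by simpa using Nat.find_min (h5 x) hm⟩
    refine ⟨Φ, ?_, fun x => ⟨fun hx => ?_, fun hx => ?_⟩⟩
    · exact Computable.cond hc (by fun_prop) (Computable.cond hc' (by fun_prop) (by fun_prop))
    · obtain ⟨b, hb⟩ := h6 x
      cases b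
      · obtain ⟨n, h, _⟩ := hb
        exact absurd hx (h4 n x h)
      · exact hb
    · obtain ⟨b, hb⟩ := h6 x
      cases b
      · exact hb
      · obtain ⟨n, h, _⟩ := hb
        exact absurd (h3 n x h) hx
  · rintro ⟨Φ, hΦ, h⟩
    exact turing_of_computes hΦ h

/-! ## `A κ` is introreducible -/

theorem el_infinite (κ : ℕ → ℕ) : (A κ).Infinite := by
  rw [Set.infinite_iff_exists_gt]
  intro a
  exact ⟨el κ 0 (a + 1), ⟨0, a + 1, by omega, rfl⟩, (Nat.lt_succ_self a).trans_le (le_el _ _ _)⟩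

theorem el_eq_encode {κ : ℕ → ℕ} {e n : ℕ} {q : ℕ × List ℕ} (h : encode q = el κ e n) :
    q.1 = e ∧ q.2 = (List.range n).map fun j => if j = e then 0 else κ j := by
  have := encode_injective h
  rw [this]
  exact ⟨rfl, rfl⟩

theorem getElem?_el {κ : ℕ → ℕ} {e n j v : ℕ}
    (h : ((List.range n).map fun j => if j = e then 0 else κ j)[j]? = some v) (hj : j ≠ e) :
    κ j = v := by
  have hjn : j < n := by
    have := (List.getElem?_eq_some_iff.1 h).1
    simpa using this
  simp [hjn, hj] at h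
  exact h

theorem kappa_REIn {κ : ℕ → ℕ} {C : Set ℕ} (hC : C ⊆ A κ) (hi : C.Infinite) :
    REIn C fun p : ℕ × ℕ => κ p.1 = p.2 := by
  by_cases hcase : ∃ e, ∀ N, ∃ n > N, el κ e n ∈ C
  · obtain ⟨e, he⟩ := hcase
    have h : REIn C fun p : ℕ × ℕ => (p.1 = e ∧ p.2 = κ e) ∨ (p.1 ≠ e ∧ ∃ q : ℕ × List ℕ,
        encode q ∈ C ∧ q.1 = e ∧ q.2[p.1]? = some p.2) := by
      refine REIn.or (REIn.and (REIn.of_re (RE.eq (by fun_prop) (by fun_prop)))
        (REIn.of_re (RE.eq (by fun_prop) (by fun_prop))))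
        (REIn.and (REIn.of_re (RE.ne (by fun_prop) (by fun_prop))) ?_)
      refine REIn.ex (S := fun (p : ℕ × ℕ) (q : ℕ × List ℕ) =>
        encode q ∈ C ∧ q.1 = e ∧ q.2[p.1]? = some p.2) ?_
      exact REIn.and (REIn.mem (by fun_prop)) (REIn.of_re (RE.and
        (RE.eq (by fun_prop) (by fun_prop)) (RE.eq (by fun_prop) (by fun_prop))))
    refine h.of_eq fun p => ?_
    obtain ⟨j, v⟩ := p
    simp only
    constructor
    · rintro (⟨rfl, rfl⟩ | ⟨hj, q, h1, h2, h3⟩)
      · rfl
      · obtain ⟨e', n, -, h4⟩ := hC h1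
        obtain ⟨h5, h6⟩ := el_eq_encode h4
        rw [h6] at h3
        exact getElem?_el h3 (by rw [← h5, h2]; exact hj)
    · rintro rfl
      by_cases hj : j = e
      · left; rw [hj]; exact ⟨rfl, rfl⟩
      · right
        obtain ⟨n, hn, h1⟩ := he j
        refine ⟨hj, (e, (List.range n).map fun j => if j = e then 0 else κ j), h1, rfl, ?_⟩
        simp [hn, hj]
  · push Not at hcase
    have h : REIn C fun p : ℕ × ℕ => ∃ q : ℕ × List ℕ,
        encode q ∈ C ∧ p.1 < q.1 ∧ q.2[p.1]? = some p.2 := by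
      refine REIn.ex (S := fun (p : ℕ × ℕ) (q : ℕ × List ℕ) =>
        encode q ∈ C ∧ p.1 < q.1 ∧ q.2[p.1]? = some p.2) ?_
      exact REIn.and (REIn.mem (by fun_prop)) (REIn.of_re (RE.and
        (RE.lt (by fun_prop) (by fun_prop)) (RE.eq (by fun_prop) (by fun_prop))))
    refine h.of_eq fun p => ?_
    obtain ⟨j, v⟩ := p
    simp only
    constructor
    · rintro ⟨q, h1, h2, h3⟩
      obtain ⟨e', n, -, h4⟩ := hC h1
      obtain ⟨h5, h6⟩ := el_eq_encode h4
      rw [h6] at h3
      exact getElem?_el h3 (by omega)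
    · rintro rfl
      choose N hN using hcase
      have h1 : ∃ e n, j < e ∧ e < n ∧ el κ e n ∈ C := by
        by_contra hcon
        push Not at hcon
        refine hi (((Finset.range (j + 1)).biUnion fun e => (Finset.range (N e + 1)).image
          fun n => el κ e n).finite_toSet.subset ?_)
        intro x hx
        obtain ⟨e, n, h1, h2⟩ := hC hx
        have h3 : e < j + 1 := by
          by_contra h
          exact hcon e n (by omega) h1 (h2 ▸ hx)
        have h4 : n < N e + 1 := by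
          by_contra h
          exact hN e n (by omega) (h2 ▸ hx)
        simp only [Finset.coe_biUnion, Finset.coe_image, mem_iUnion, mem_image, Finset.mem_coe,
          Finset.mem_range]
        exact ⟨e, h3, n, h4, h2.symm⟩
      obtain ⟨e, n, h1, h2, h3⟩ := h1
      refine ⟨(e, (List.range n).map fun j => if j = e then 0 else κ j), h3, h1, ?_⟩
      have h4 : j < n := by omega
      have h5 : j ≠ e := by omega
      simp [h4, h5]

theorem mem_A_iff {κ : ℕ → ℕ} {x : ℕ} : x ∈ A κ ↔ ∃ q : ℕ × List ℕ, encode q = x ∧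
    q.1 < q.2.length ∧ ∀ j < q.2.length, (j = q.1 ∧ q.2[j]? = some 0) ∨
      (j ≠ q.1 ∧ ∃ v, κ j = v ∧ q.2[j]? = some v) := by
  constructor
  · rintro ⟨e, n, h1, rfl⟩
    refine ⟨(e, (List.range n).map fun j => if j = e then 0 else κ j), rfl, by simpa using h1,
      fun j hj => ?_⟩
    simp only [List.length_map, List.length_range] at hj
    by_cases h : j = e
    · left; simp [h, h1]
    · right; simp [h, hj]
  · rintro ⟨q, rfl, h1, h2⟩
    refine ⟨q.1, q.2.length, h1, ?_⟩
    unfold el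
    congr 1
    have : q.2 = (List.range q.2.length).map fun j => if j = q.1 then 0 else κ j := by
      apply List.ext_getElem?
      intro j
      by_cases hj : j < q.2.length
      · rcases h2 j hj with ⟨h3, h4⟩ | ⟨h3, v, h4, h5⟩
        · rw [h4]; simp [h3, h1]
        · rw [h5]; simp [h3, hj, h4]
      · rw [List.getElem?_eq_none (by omega), List.getElem?_eq_none (by simp; omega)]
    exact Prod.ext rfl this

theorem introreducible_A {κ : ℕ → ℕ} {C : Set ℕ} (hC : C ⊆ A κ) (hi : C.Infinite) :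
    TuringReducible (chi (A κ)) (chi C) := by
  have hk := kappa_REIn hC hi
  rw [turingReducible_iff]
  constructor
  · have h : REIn C fun x : ℕ => ∃ q : ℕ × List ℕ, encode q = x ∧
        q.1 < q.2.length ∧ ∀ j < q.2.length, (j = q.1 ∧ q.2[j]? = some 0) ∨
        (j ≠ q.1 ∧ ∃ v, κ j = v ∧ q.2[j]? = some v) := by
      refine REIn.ex (S := fun (x : ℕ) (q : ℕ × List ℕ) => encode q = x ∧
        q.1 < q.2.length ∧ ∀ j < q.2.length, (j = q.1 ∧ q.2[j]? = some 0) ∨
        (j ≠ q.1 ∧ ∃ v, κ j = v ∧ q.2[j]? = some v)) ?_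
      refine REIn.and (REIn.of_re (RE.eq (by fun_prop) (by fun_prop)))
        (REIn.and (REIn.of_re (RE.lt (by fun_prop) (by fun_prop))) ?_)
      refine REIn.all_lt (S := fun (x : ℕ × (ℕ × List ℕ)) (j : ℕ) =>
        (j = x.2.1 ∧ x.2.2[j]? = some 0) ∨ (j ≠ x.2.1 ∧ ∃ v, κ j = v ∧ x.2.2[j]? = some v)) ?_
        (f := fun x => x.2.2.length) (by fun_prop)
      refine REIn.or (REIn.of_re (RE.and (RE.eq (by fun_prop) (by fun_prop))
        (RE.eq (by fun_prop) (by fun_prop)))) (REIn.and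
        (REIn.of_re (RE.ne (by fun_prop) (by fun_prop))) ?_)
      refine REIn.ex (S := fun (x : (ℕ × (ℕ × List ℕ)) × ℕ) (v : ℕ) =>
        κ x.2 = v ∧ x.1.2.2[x.2]? = some v) ?_
      exact REIn.and (hk.comp (f := fun x : ((ℕ × (ℕ × List ℕ)) × ℕ) × ℕ => (x.1.2, x.2))
        (by fun_prop)) (REIn.of_re (RE.eq (by fun_prop) (by fun_prop)))
    exact h.of_eq fun x => mem_A_iff.symm
  · have h : REIn C fun x : ℕ => ∃ q : ℕ × List ℕ, encode q = x ∧
        (q.2.length ≤ q.1 ∨ ∃ j, j < q.2.length ∧ ((j = q.1 ∧ q.2[j]? ≠ some 0) ∨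
        (j ≠ q.1 ∧ ∃ v, κ j = v ∧ q.2[j]? ≠ some v))) := by
      refine REIn.ex (S := fun (x : ℕ) (q : ℕ × List ℕ) => encode q = x ∧
        (q.2.length ≤ q.1 ∨ ∃ j, j < q.2.length ∧ ((j = q.1 ∧ q.2[j]? ≠ some 0) ∨
        (j ≠ q.1 ∧ ∃ v, κ j = v ∧ q.2[j]? ≠ some v)))) ?_
      refine REIn.and (REIn.of_re (RE.eq (by fun_prop) (by fun_prop)))
        (REIn.or (REIn.of_re (RE.le (by fun_prop) (by fun_prop))) ?_)
      refine REIn.ex (S := fun (x : ℕ × (ℕ × List ℕ)) (j : ℕ) => j < x.2.2.length ∧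
        ((j = x.2.1 ∧ x.2.2[j]? ≠ some 0) ∨ (j ≠ x.2.1 ∧ ∃ v, κ j = v ∧ x.2.2[j]? ≠ some v))) ?_
      refine REIn.and (REIn.of_re (RE.lt (by fun_prop) (by fun_prop))) ?_
      refine REIn.or (REIn.of_re (RE.and (RE.eq (by fun_prop) (by fun_prop))
        (RE.ne (by fun_prop) (by fun_prop)))) (REIn.and
        (REIn.of_re (RE.ne (by fun_prop) (by fun_prop))) ?_)
      refine REIn.ex (S := fun (x : (ℕ × (ℕ × List ℕ)) × ℕ) (v : ℕ) =>
        κ x.2 = v ∧ x.1.2.2[x.2]? ≠ some v) ?_
      exact REIn.and (hk.comp (f := fun x : ((ℕ × (ℕ × List ℕ)) × ℕ) × ℕ => (x.1.2, x.2))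
        (by fun_prop)) (REIn.of_re (RE.ne (by fun_prop) (by fun_prop)))
    refine h.of_eq fun x => ?_
    constructor
    · rintro ⟨q, rfl, h1⟩ h2
      obtain ⟨q', h3, h4, h5⟩ := mem_A_iff.1 h2
      have := encode_injective h3
      subst this
      rcases h1 with h1 | ⟨j, h6, h7⟩
      · omega
      · rcases h5 j h6 with ⟨h8, h9⟩ | ⟨h8, v, h9, h10⟩
        · rcases h7 with ⟨-, h7⟩ | ⟨h7, -⟩
          · exact h7 h9
          · exact h7 h8
        · rcases h7 with ⟨h7, -⟩ | ⟨-, w, h7, h11⟩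
          · exact h8 h7
          · exact h11 (by rw [← h7, h9]; exact h10)
    · intro hx
      obtain ⟨q, rfl⟩ : ∃ q : ℕ × List ℕ, encode q = x :=
        ⟨Denumerable.ofNat (ℕ × List ℕ) x, Denumerable.encode_ofNat x⟩
      refine ⟨q, rfl, ?_⟩
      by_contra hcon
      push Not at hcon
      obtain ⟨h1, h2⟩ := hcon
      refine hx (mem_A_iff.2 ⟨q, rfl, h1, fun j hj => ?_⟩)
      obtain ⟨h3, h4⟩ := h2 j hj
      by_cases h : j = q.1
      · exact Or.inl ⟨h, h3 h⟩
      · exact Or.inr ⟨h, κ j, rfl, h4 h _ rfl⟩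

end Pool.Agent.Q316.Intro
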